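import Pool.Agent.TH412.PF.Glue

/-!
The union of two pieces, given the tables.
-/

set_option autoImplicit false

open Finset

namespace Pool.Agent.TH412.PF

variable {V E : Type} [Fintype E]

theorem bd_congr (s t : E → V) (x y : E → ZMod 2) (v : V)
    (h : ∀ e, (s e = v ∨ t e = v) → x e = y e) : bd s t x v = bd s t y v := by
  classical
  unfold bd
  refine Finset.sum_congr rfl fun e _ => ?_
  by_cases h1 : s e = v
  · rw [h e (Or.inl h1)]
  · by_cases h2 : t e = v
    · rw [h e (Or.inr h2)]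
    · simp [h1, h2]

theorem aux {p q r u : Prop} (h1 : ¬ (p ↔ q)) (h2 : ¬ ¬ (r ↔ u)) (h5 : r → ¬ p)
    (h6 : u → ¬ q) : ¬ (r ∨ u) := by tauto

/-- The statement of the tables. -/
def StmTable : Prop := ∀ a b m n : ℕ, 3 ≤ a → a ≤ b → b ≤ 5 → m < nb a → n < nb b →
  (a < b ∨ m ≤ n) → ∃ es W, chkG a b (pats b a) es = true ∧ chkP a m b n es W = true

theorem join_core (hact : StmAct) (htab : StmTable) (s t : E → V) (X Y R : Set V) (a b m n : ℕ)
    (hd : Disjoint X Y) (hR : Disjoint (X ∪ Y) R)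
    (hE : ∀ e, s e ∈ X ∪ Y ∪ R ∧ t e ∈ X ∪ Y ∪ R)
    (hRc : (cut s t (X ∪ Y)).card ≠ 0 → Conn s t R) (hP : ¬ HasPet s t)
    (oX oY : ℕ → E) (hX : Ord s t X a oX) (hY : Ord s t Y b oY) (hm : m < nb a) (hn : n < nb b)
    (sX : ∀ i < tl a m, HasSt s t X a oX (stt (tp a m) i))
    (sY : ∀ i < tl b n, HasSt s t Y b oY (stt (tp b n) i))
    (tX : ∀ τ ∈ ty a m, Mod s t X oX τ) (tY : ∀ τ ∈ ty b n, Mod s t Y oY τ)
    (ha : 3 ≤ a) (hab : a ≤ b) (hb : b ≤ 5) (hmn : a < b ∨ m ≤ n)
    (hk : (cut s t (X ∪ Y)).card = 0 ∨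
      3 ≤ (cut s t (X ∪ Y)).card ∧ (cut s t (X ∪ Y)).card ≤ 5) :
    HasC s t (X ∪ Y) (cut s t (X ∪ Y)).card := by
  classical
  have hX0 := hX
  have hY0 := hY
  obtain ⟨iX, mX⟩ := hX
  obtain ⟨iY, mY⟩ := hY
  obtain ⟨g, hg⟩ : ∃ g : ℕ → ℕ, g = fun x => if h : ∃ y < b, oY y = oX x then h.choose else b :=
    ⟨_, rfl⟩
  have hg2 : ∀ x, g x ≠ b → g x < b ∧ oY (g x) = oX x := by
    intro x hx
    by_cases h : ∃ y < b, oY y = oX x
    · have : g x = h.choose := by rw [hg]; simp only [dif_pos h]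
      rw [this]; exact h.choose_spec
    · exact absurd (by rw [hg]; simp only [dif_neg h]) hx
  have hg1 : ∀ x, g x ≤ b := by
    intro x
    by_cases h : g x = b
    · exact h.le
    · exact (hg2 x h).1.le
  have hg3 : ∀ x y, y < b → oY y = oX x → g x = y := by
    intro x y hy hxy
    have h : ∃ y < b, oY y = oX x := ⟨y, hy, hxy⟩
    have h1 : g x = h.choose := by rw [hg]; simp only [dif_pos h]
    rw [h1]
    exact iY _ h.choose_spec.1 _ hy (h.choose_spec.2.trans hxy.symm)
  obtain ⟨G, hGd⟩ : ∃ G : List ℕ, G = (List.range a).map g := ⟨_, rfl⟩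
  have hGg : ∀ x < a, G.getD x b = g x := by
    intro x hx
    rw [hGd, List.getD_eq_getElem?_getD, List.getElem?_map, List.getElem?_range hx]
    rfl
  have hGm : ∀ y, y ∈ G ↔ ∃ x < a, g x = y := by
    intro y
    rw [hGd, List.mem_map]
    simp only [List.mem_range]
  have hGp : G ∈ pats b a := by
    refine mem_pats b a G (by rw [hGd]; simp) ?_ ?_
    · intro y hy
      obtain ⟨x, _, rfl⟩ := (hGm y).mp hy
      exact hg1 x
    · rw [hGd, List.pairwise_map]
      refine List.Pairwise.imp_of_mem ?_ (List.nodup_range (n := a))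
      intro x y hx hy hxy h
      by_contra hne
      have h1 := (hg2 x hne).2
      have h2 := (hg2 y (by rw [← h]; exact hne)).2
      rw [h] at h1
      exact hxy (iX x (List.mem_range.mp hx) y (List.mem_range.mp hy) (h1.symm.trans h2))
  obtain ⟨src, hsrc⟩ : ∃ src : ℕ → E, src = fun z => if z < a then oX z else oY (z - a) :=
    ⟨_, rfl⟩
  have hs1 : ∀ z, z < a → src z = oX z := fun z hz => by rw [hsrc]; simp only [if_pos hz]
  have hs2 : ∀ y, src (a + y) = oY y := fun y => by
    rw [hsrc]; simp only [if_neg (by omega : ¬ a + y < a), Nat.add_sub_cancel_left]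
  have hfr : ∀ z, z ∈ fr a b G ↔ (z < a ∧ g z = b) ∨ ∃ y < b, y ∉ G ∧ z = a + y := by
    intro z
    rw [mem_fr]
    constructor
    · rintro (⟨h1, h2⟩ | h)
      · exact Or.inl ⟨h1, by rw [← hGg z h1]; exact h2⟩
      · exact Or.inr h
    · rintro (⟨h1, h2⟩ | h)
      · exact Or.inl ⟨h1, by rw [hGg z h1]; exact h2⟩
      · exact Or.inr h
  have hfX : ∀ z, z < a → g z = b → oX z ∈ cut s t X ∧ oX z ∉ cut s t Y := by
    intro z hz hgz
    refine ⟨(mX _).mpr ⟨z, hz, rfl⟩, fun h => ?_⟩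
    obtain ⟨y, hy, hyz⟩ := (mY _).mp h
    have := hg3 z y hy hyz
    omega
  have hfY : ∀ y, y < b → y ∉ G → oY y ∈ cut s t Y ∧ oY y ∉ cut s t X := by
    intro y hy hyG
    refine ⟨(mY _).mpr ⟨y, hy, rfl⟩, fun h => ?_⟩
    obtain ⟨x, hx, hxy⟩ := (mX _).mp h
    exact hyG ((hGm y).mpr ⟨x, hx, hg3 x y hy hxy.symm⟩)
  have henum : ∀ e, e ∈ cut s t (X ∪ Y) ↔ ∃ z ∈ fr a b G, src z = e := by
    intro e
    rw [mem_cut_union s t X Y hd]
    constructor
    · rintro (⟨h1, h2⟩ | ⟨h1, h2⟩)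
      · obtain ⟨x, hx, rfl⟩ := (mX e).mp h1
        refine ⟨x, (hfr x).mpr (Or.inl ⟨hx, ?_⟩), hs1 x hx⟩
        by_contra hne
        exact h2 ((mY _).mpr ⟨g x, (hg2 x hne).1, (hg2 x hne).2⟩)
      · obtain ⟨y, hy, rfl⟩ := (mY e).mp h1
        refine ⟨a + y, (hfr _).mpr (Or.inr ⟨y, hy, ?_, rfl⟩), hs2 y⟩
        intro hyG
        obtain ⟨x, hx, hxy⟩ := (hGm y).mp hyG
        have := hg2 x (by omega)
        rw [hxy] at this
        exact h2 ((mX _).mpr ⟨x, hx, this.2.symm⟩)
    · rintro ⟨z, hz, rfl⟩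
      rcases (hfr z).mp hz with ⟨h1, h2⟩ | ⟨y, hy, hyG, rfl⟩
      · rw [hs1 z h1]; exact Or.inl (hfX z h1 h2)
      · rw [hs2 y]; exact Or.inr (hfY y hy hyG)
  have hinj : ∀ z ∈ fr a b G, ∀ w ∈ fr a b G, src z = src w → z = w := by
    intro z hz w hw h
    rcases (hfr z).mp hz with ⟨h1, h2⟩ | ⟨y, hy, hyG, rfl⟩
    · rcases (hfr w).mp hw with ⟨h3, h4⟩ | ⟨y', hy', hyG', rfl⟩
      · rw [hs1 z h1, hs1 w h3] at h; exact iX z h1 w h3 h
      · rw [hs1 z h1, hs2 y'] at h
        have := (hfX z h1 h2).2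
        rw [h] at this
        exact absurd (hfY y' hy' hyG').1 this
    · rcases (hfr w).mp hw with ⟨h3, h4⟩ | ⟨y', hy', hyG', rfl⟩
      · rw [hs1 w h3, hs2 y] at h
        have := (hfX w h3 h4).2
        rw [← h] at this
        exact absurd (hfY y hy hyG).1 this
      · rw [hs2 y, hs2 y'] at h
        rw [iY y hy y' hy' h]
  have hcard : (cut s t (X ∪ Y)).card = (fr a b G).length := by
    have h1 : cut s t (X ∪ Y) = ((fr a b G).map src).toFinset := by
      ext e
      rw [henum e, List.mem_toFinset, List.mem_map]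
    rw [h1, List.toFinset_card_of_nodup, List.length_map]
    exact List.Nodup.map_on hinj (nodup_fr a b G)
  rw [hcard] at hk hRc ⊢
  have hrel : rel (fr a b G).length = true := by
    unfold rel
    simp only [Bool.or_eq_true, Bool.and_eq_true, Nat.beq_eq, Nat.ble_eq]
    exact hk
  obtain ⟨es, W, hes, hW⟩ := htab a b m n ha hab hb hm hn hmn
  obtain ⟨e, he, hok⟩ := chkG_sound a b _ es hes G hGp hrel
  obtain ⟨w, hw⟩ := chkAll_sound _ es W hW e he
  obtain ⟨ok1, ok2, ok3⟩ := okG_sound a b G e hok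
  have ok3' : ∀ x < a, nib (Nat.shiftRight e 24) x = g x := fun x hx => (ok3 x hx).trans (hGg x hx)
  have hgl : ∀ x < a, nib (Nat.shiftRight e 24) x < b → oY (nib (Nat.shiftRight e 24) x) = oX x := by
    intro x hx h
    rw [ok3' x hx] at h ⊢
    exact (hg2 x (by omega)).2
  have hTX : ∀ i, Mod s t X oX (getL rm0 (ty a m) i) ∧ ∀ p ∈ (getL rm0 (ty a m) i).H, p.2 < a := by
    intro i
    rcases getL_mem rm0 (ty a m) i with h | h
    · rw [h]
      exact ⟨mod_rm0 s t X oX, fun p hp => by simp [rm0] at hp⟩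
    · exact ⟨tX _ h, ty_lt a m (by omega) hm _ h⟩
  have hTY : ∀ i, Mod s t Y oY (getL rm0 (ty b n) i) := by
    intro i
    rcases getL_mem rm0 (ty b n) i with h | h
    · rw [h]
      exact mod_rm0 s t Y oY
    · exact tY _ h
  rcases chk1_sound _ _ _ _ _ _ _ _ _ _ hw with ⟨v, hv⟩ | ⟨r, hr, c, hord, hst, htt⟩
  · exfalso
    apply hP
    unfold chkW at hv
    rw [ok1] at hv
    refine glue_pet hd hR hE hX0 hY0 hgl ?_ ?_ hRc (hTX _).1 (hTY _) (hTX _).2 hv
    · intro x hx h
      rw [ok3' x hx] at h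
      exact (hfX x hx h).2
    · intro y hy h
      refine (hfY y hy ?_).2
      intro hyG
      obtain ⟨x, hx, hxy⟩ := (hGm y).mp hyG
      exact h x hx (by rw [ok3' x hx]; exact hxy)
  · rw [ok1] at hr hord hst htt
    obtain ⟨o1, o2⟩ := okO_sound _ _ _ hord
    obtain ⟨k, hkk⟩ : ∃ k, k = (fr a b G).length := ⟨_, rfl⟩
    rw [← hkk] at hr hord hst htt o1 o2 ok2 hk ⊢
    have hk5 : k ≤ 5 := by omega
    have hF : ∀ i < k, nib (Nat.land (Nat.shiftRight e 4) 1048575) i = (fr a b G).getD i 0 := by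
      intro i hi
      rw [nib_land _ _ (by omega)]
      exact ok2 i hi
    have hfget : ∀ i (hi : i < k), (fr a b G).getD i 0 = (fr a b G)[i]'(by rw [← hkk]; exact hi) := by
      intro i hi
      rw [List.getD_eq_getElem?_getD, List.getElem?_eq_getElem (by rw [← hkk]; exact hi)]
      rfl
    have hcmem : ∀ i, i < k → nib c i ∈ fr a b G := by
      intro i hi
      obtain ⟨j, hj, h⟩ := o2 i hi
      rw [h, hF j hj, hfget j hj]
      exact List.getElem_mem _
    have hcall : ∀ z ∈ fr a b G, ∃ i < k, nib c i = z := by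
      intro z hz
      obtain ⟨i, hi, rfl⟩ := List.getElem_of_mem hz
      have hi' : i < k := by rw [hkk]; exact hi
      obtain ⟨j, hj, h⟩ := o1 i hi'
      rw [hF i hi', hfget i hi'] at h
      exact ⟨j, hj, h.symm⟩
    have hcinj : ∀ i < k, ∀ j < k, nib c i = nib c j → i = j := by
      have himg : (Finset.range k).image (nib c) = (fr a b G).toFinset := by
        ext z
        rw [Finset.mem_image, List.mem_toFinset]
        constructor
        · rintro ⟨i, hi, rfl⟩
          exact hcmem i (Finset.mem_range.1 hi)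
        · intro hz
          obtain ⟨i, hi, h⟩ := hcall z hz
          exact ⟨i, Finset.mem_range.2 hi, h⟩
      have hcd : ((Finset.range k).image (nib c)).card = (Finset.range k).card := by
        rw [himg, List.toFinset_card_of_nodup (nodup_fr a b G), Finset.card_range, hkk]
      rw [Finset.card_image_iff] at hcd
      intro i hi j hj h
      exact hcd (by simpa using hi) (by simpa using hj) h
    refine ⟨fun i => src (nib c i), ⟨?_, ?_⟩, r, hr, ?_, ?_⟩
    · intro i hi j hj hij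
      exact hcinj i hi j hj (hinj _ (hcmem i hi) _ (hcmem j hj) hij)
    · intro x
      rw [henum x]
      constructor
      · rintro ⟨z, hz, rfl⟩
        obtain ⟨i, hi, rfl⟩ := hcall z hz
        exact ⟨i, hi, rfl⟩
      · rintro ⟨i, hi, rfl⟩
        exact ⟨_, hcmem i hi, rfl⟩
    · intro j hj
      obtain ⟨u, hu⟩ := hst j hj
      obtain ⟨i1, hi1, p, hp, i2, hi2, q, hq, hglue, htgt⟩ := chkU_sound _ _ _ _ _ _ _ _ _ _ _ hu
      obtain ⟨fX, gX, vX⟩ := sX i1 hi1
      obtain ⟨fY, gY, vY⟩ := sY i2 hi2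
      have gX' := hact V E s t X fX p hp gX
      have gY' := hact V E s t Y fY q hq gY
      obtain ⟨f, hf⟩ : ∃ f : E → ℕ, f = fun e => if s e ∈ X ∨ t e ∈ X then nib (pt p) (fX e)
        else nib (pt q) (fY e) := ⟨_, rfl⟩
      have hf1 : ∀ e, (s e ∈ X ∨ t e ∈ X) → f e = nib (pt p) (fX e) := fun e he => by
        rw [hf]; simp only [if_pos he]
      have hf2 : ∀ e, ¬ (s e ∈ X ∨ t e ∈ X) → f e = nib (pt q) (fY e) := fun e he => by
        rw [hf]; simp only [if_neg he]
      have hdis : ∀ v, v ∈ X → v ∉ Y := fun v hv => Set.disjoint_left.mp hd hv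
      have hf3 : ∀ e, (s e ∈ Y ∨ t e ∈ Y) → f e = nib (pt q) (fY e) := by
        intro e he
        by_cases hx : s e ∈ X ∨ t e ∈ X
        · have h1 := hdis (s e)
          have h2 := hdis (t e)
          have hcX : e ∈ cut s t X := by rw [mem_cut]; tauto
          have hcY : e ∈ cut s t Y := by rw [mem_cut]; tauto
          obtain ⟨x, hx', rfl⟩ := (mX e).mp hcX
          obtain ⟨y, hy', hxy⟩ := (mY _).mp hcY
          have hgx := hg3 x y hy' hxy
          have h3 := hglue x hx' (by rw [ok3' x hx']; omega)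
          rw [ok3' x hx', hgx] at h3
          rw [hf1 _ hx, vX x hx', h3, ← hxy, vY y hy']
        · exact hf2 e hx
      refine ⟨f, ⟨?_, ?_⟩, ?_⟩
      · intro e
        by_cases hx : s e ∈ X ∨ t e ∈ X
        · rw [hf1 e hx]; exact gX'.1 e
        · rw [hf2 e hx]; exact gY'.1 e
      · intro v hv i hi
        rcases hv with hv | hv
        · rw [← gX'.2 v hv i hi]
          refine bd_congr s t _ _ v fun e he => ?_
          unfold xi
          rw [hf1 e (by rcases he with h | h <;> rw [h] <;> simp [hv])]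
        · rw [← gY'.2 v hv i hi]
          refine bd_congr s t _ _ v fun e he => ?_
          unfold xi
          rw [hf3 e (by rcases he with h | h <;> rw [h] <;> simp [hv])]
      · intro i hi
        have hmem := hcmem i hi
        have ht := htgt i hi
        show f (src (nib c i)) = _
        rcases (hfr _).mp hmem with ⟨h1, h2⟩ | ⟨y, hy, hyG, hcy⟩
        · rw [hs1 _ h1, hf1, vX _ h1, ht.1 h1]
          have h3 := (hfX _ h1 h2).1
          rw [mem_cut] at h3
          tauto
        · have h3 := hfY y hy hyG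
          rw [mem_cut, mem_cut] at h3
          have h4 := ht.2 (by omega)
          rw [hcy, Nat.add_sub_cancel_left] at h4
          rw [hcy, hs2, hf2, vY y hy, h4]
          exact aux h3.1 h3.2 (hdis (s (oY y))) (hdis (t (oY y)))
    · intro τ hτ
      obtain ⟨v, hv⟩ := htt τ hτ
      unfold chkV at hv
      refine glue_mod hd hgl (hTX _).1 (hTY _) (hTX _).2 hv _ ?_
      intro i
      show src (nib c i) = _
      rw [hsrc]

theorem join (hact : StmAct) (htab : StmTable) : StmJoin := by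
  intro V E _ s t X Y R a b hd hR hE hRc hP hX hY ha ha5 hb hb5 hk
  obtain ⟨oX, ordX, m, hm, sX, tX⟩ := hX
  obtain ⟨oY, ordY, n, hn, sY, tY⟩ := hY
  rcases lt_or_ge a b with h | h
  · exact join_core hact htab s t X Y R a b m n hd hR hE hRc hP oX oY ordX ordY hm hn sX sY tX tY
      ha h.le hb5 (Or.inl h) hk
  · rcases lt_or_ge b a with h' | h'
    · rw [Set.union_comm X Y] at hk hR hE hRc ⊢
      exact join_core hact htab s t Y X R b a n m hd.symm hR hE hRc hP oY oX ordY ordX hn hm sY sX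
        tY tX hb h'.le ha5 (Or.inl h') hk
    · rcases le_total m n with h2 | h2
      · exact join_core hact htab s t X Y R a b m n hd hR hE hRc hP oX oY ordX ordY hm hn sX sY tX
          tY ha h' hb5 (Or.inr h2) hk
      · rw [Set.union_comm X Y] at hk hR hE hRc ⊢
        exact join_core hact htab s t Y X R b a n m hd.symm hR hE hRc hP oY oX ordY ordX hn hm sY sX
          tY tX hb h ha5 (Or.inr h2) hk

end Pool.Agent.TH412.PF
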