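import Pool.Agent.TH412.PF.Defs

/-!
Single vertices.
-/

set_option autoImplicit false

open Finset

namespace Pool.Agent.TH412.PF

lemma key3 : ∀ i < tl 3 0, (∀ j < 3, nib (stt (tp 3 0) i) j < 3) ∧
    ∀ b < 3, (∑ j : Fin 3, if mem3 (nib (stt (tp 3 0) i) j) b = true then (1 : ZMod 2) else 0) = 0 := by
  decide +kernel

lemma key4 : ∀ i < tl 4 0, (∀ j < 4, nib (stt (tp 4 0) i) j < 3) ∧
    ∀ b < 3, (∑ j : Fin 4, if mem3 (nib (stt (tp 4 0) i) j) b = true then (1 : ZMod 2) else 0) = 0 := by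
  decide +kernel

lemma key5 : ∀ i < tl 5 0, (∀ j < 5, nib (stt (tp 5 0) i) j < 3) ∧
    ∀ b < 3, (∑ j : Fin 5, if mem3 (nib (stt (tp 5 0) i) j) b = true then (1 : ZMod 2) else 0) = 0 := by
  decide +kernel

lemma key (k : ℕ) (h3 : 3 ≤ k) (h5 : k ≤ 5) : 0 < nb k ∧ ∀ i < tl k 0,
    (∀ j < k, nib (stt (tp k 0) i) j < 3) ∧ ∀ b < 3,
    (∑ j : Fin k, if mem3 (nib (stt (tp k 0) i) j) b = true then (1 : ZMod 2) else 0) = 0 := by
  interval_cases k
  · exact ⟨by decide, key3⟩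
  · exact ⟨by decide, key4⟩
  · exact ⟨by decide, key5⟩

lemma keyT (k : ℕ) (h3 : 3 ≤ k) (h5 : k ≤ 5) : ∀ τ ∈ ty k 0, τ.n = 1 ∧ τ.L = [] ∧
    ∀ p ∈ τ.H, p.1 = 0 ∧ p.2 < k := by
  interval_cases k
  · intro τ hτ
    have h : τ ∈ [(⟨1, [], [(0, 0), (0, 1), (0, 2)]⟩ : RM)] := hτ
    rw [List.mem_singleton] at h
    subst h
    exact ⟨rfl, rfl, by decide⟩
  · intro τ hτ
    have h : τ ∈ [(⟨1, [], [(0, 0), (0, 1), (0, 2), (0, 3)]⟩ : RM)] := hτ
    rw [List.mem_singleton] at h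
    subst h
    exact ⟨rfl, rfl, by decide⟩
  · intro τ hτ
    have h : τ ∈ [(⟨1, [], [(0, 0), (0, 1), (0, 2), (0, 3), (0, 4)]⟩ : RM)] := hτ
    rw [List.mem_singleton] at h
    subst h
    exact ⟨rfl, rfl, by decide⟩

theorem leaf : StmLeaf := by
  classical
  intro V E _ s t v h3 h5
  obtain ⟨C, hC⟩ : ∃ C, C = cut s t {v} := ⟨_, rfl⟩
  rw [← hC] at h3 h5 ⊢
  have hmem : ∀ e, e ∈ C ↔ ¬ (s e = v ↔ t e = v) := by
    intro e
    rw [hC, cut]
    simp only [Finset.mem_filter, Finset.mem_univ, true_and, Set.mem_singleton_iff]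
  obtain ⟨e0, he0⟩ : C.Nonempty := Finset.card_pos.mp (by omega)
  obtain ⟨hnb, hkey⟩ := key C.card h3 h5
  let q := C.equivFin
  let o : ℕ → E := fun i => if h : i < C.card then (q.symm ⟨i, h⟩).1 else e0
  refine ⟨o, ⟨?_, ?_⟩, 0, hnb, ?_, ?_⟩
  · intro i hi j hj hij
    simp only [o, dif_pos hi, dif_pos hj] at hij
    have h1 := q.symm.injective (Subtype.ext hij)
    simpa using h1
  · intro e
    rw [← hC]
    constructor
    · intro he
      refine ⟨(q ⟨e, he⟩).1, (q ⟨e, he⟩).2, ?_⟩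
      simp only [o, dif_pos (q ⟨e, he⟩).2, Fin.eta, Equiv.symm_apply_apply]
    · rintro ⟨i, hi, rfl⟩
      simp only [o, dif_pos hi]
      exact (q.symm ⟨i, hi⟩).2
  · intro i hi
    obtain ⟨k1, k2⟩ := hkey i hi
    obtain ⟨S, hS⟩ : ∃ S, S = stt (tp C.card 0) i := ⟨_, rfl⟩
    rw [← hS] at k1 k2 ⊢
    obtain ⟨f, hf⟩ : ∃ f : E → ℕ, f = fun e => if h : e ∈ C then nib S (q ⟨e, h⟩) else 0 :=
      ⟨_, rfl⟩
    have hf1 : ∀ e (h : e ∈ C), f e = nib S (q ⟨e, h⟩) := by
      intro e h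
      rw [hf]
      simp only [dif_pos h]
    have hf2 : ∀ e, e ∉ C → f e = 0 := by
      intro e h
      rw [hf]
      simp only [dif_neg h]
    refine ⟨f, ⟨?_, ?_⟩, ?_⟩
    · intro e
      by_cases h : e ∈ C
      · rw [hf1 e h]
        exact k1 _ (q ⟨e, h⟩).2
      · rw [hf2 e h]
        omega
    · intro w hw b hb
      rw [Set.mem_singleton_iff] at hw
      subst hw
      have h1 : bd s t (xi f b) w = ∑ e, if e ∈ C then xi f b e else 0 := by
        unfold bd
        refine Finset.sum_congr rfl ?_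
        intro e _
        by_cases h2 : s e = w <;> by_cases h3 : t e = w
        · have hm : e ∉ C := by rw [hmem]; tauto
          rw [if_neg hm, if_pos h2, if_pos h3]
          have h4 : (1 : ZMod 2) + 1 = 0 := by decide
          rw [h4, mul_zero]
        · have hm : e ∈ C := by rw [hmem]; tauto
          rw [if_pos hm, if_pos h2, if_neg h3, add_zero, mul_one]
        · have hm : e ∈ C := by rw [hmem]; tauto
          rw [if_pos hm, if_neg h2, if_pos h3, zero_add, mul_one]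
        · have hm : e ∉ C := by rw [hmem]; tauto
          rw [if_neg hm, if_neg h2, if_neg h3, add_zero, mul_zero]
      rw [h1, Finset.sum_ite_mem, Finset.univ_inter, ← Finset.sum_coe_sort C (xi f b),
        ← q.symm.sum_comp, ← k2 b hb]
      refine Finset.sum_congr rfl ?_
      intro j _
      unfold xi
      rw [hf1 _ (q.symm j).2]
      simp only [Subtype.coe_eta, Equiv.apply_symm_apply]
    · intro j hj
      simp only [o, dif_pos hj]
      rw [hf1 _ (q.symm ⟨j, hj⟩).2]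
      simp only [Subtype.coe_eta, Equiv.apply_symm_apply]
  · intro τ hτ
    obtain ⟨h1, h2, h4⟩ := keyT C.card h3 h5 τ hτ
    refine ⟨fun _ => {v}, ?_, ?_, ?_, ?_⟩
    · intro i _
      refine ⟨Set.Subset.refl _, Set.singleton_nonempty v, ?_⟩
      intro Z hZ hZ1 hZ2
      exact absurd (Set.Nonempty.subset_singleton_iff hZ1 |>.1 hZ) hZ2
    · intro i hi j hj hij
      rw [h1] at hi hj
      omega
    · intro p hp
      rw [h2] at hp
      simp at hp
    · intro p hp
      obtain ⟨h5, h6⟩ := h4 p hp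
      refine ⟨by rw [h1, h5]; exact Nat.one_pos, ?_⟩
      have h7 : o p.2 ∈ C := by
        simp only [o, dif_pos h6]
        exact (q.symm ⟨_, h6⟩).2
      rw [hmem] at h7
      simp only [Set.mem_singleton_iff]
      tauto

end Pool.Agent.TH412.PF
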