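import Pool.Agent.TH412.PF.Defs

/-!
The six permutations of the colours.
-/

set_option autoImplicit false

open Finset

namespace Pool.Agent.TH412.PF

theorem pt_lt : ∀ p < 6, ∀ c < 3, nib (pt p) c < 3 := by decide +kernel

theorem pt_inj : ∀ p < 6, ∀ c < 3, ∀ i < 3, mem3 (nib (pt p) c) (nib (pt p) i) = mem3 c i := by
  decide +kernel

theorem pt_surj : ∀ p < 6, ∀ j < 3, ∃ i < 3, nib (pt p) i = j := by decide +kernel

theorem trans : StmTrans := by
  unfold StmTrans
  decide +kernel

theorem act : StmAct := by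
  intro V E _ s t X f p hp ⟨h1, h2⟩
  refine ⟨fun e => pt_lt p hp _ (h1 e), fun v hv j hj => ?_⟩
  obtain ⟨i, hi, rfl⟩ := pt_surj p hp j hj
  have hx : xi (fun e => nib (pt p) (f e)) (nib (pt p) i) = xi f i := by
    funext e
    unfold xi
    rw [pt_inj p hp _ (h1 e) i hi]
  rw [hx]
  exact h2 v hv i hi

end Pool.Agent.TH412.PF
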