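import Pool.Agent.TH412.PF.Dat0
import Pool.Agent.TH412.PF.Dat1
import Pool.Agent.TH412.PF.Dat2
import Pool.Agent.TH412.PF.Dat3
import Pool.Agent.TH412.PF.Dat4
import Pool.Agent.TH412.PF.Dat5
import Pool.Agent.TH412.PF.Dat6
import Pool.Agent.TH412.PF.Dat7
import Pool.Agent.TH412.PF.Dat8
import Mathlib.Tactic.IntervalCases

/-! All gluing tables together. -/

set_option autoImplicit false

namespace Pool.Agent.TH412.PF

theorem table (a b m n : ℕ) (ha : 3 ≤ a) (hab : a ≤ b) (hb : b ≤ 5) (hm : m < nb a)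
    (hn : n < nb b) (hmn : a < b ∨ m ≤ n) :
    ∃ es W, chkG a b (pats b a) es = true ∧ chkP a m b n es W = true := by
  have ha3 : a = 3 ∨ a = 4 ∨ a = 5 := by omega
  rcases ha3 with rfl | rfl | rfl
  · have hb3 : b = 3 ∨ b = 4 ∨ b = 5 := by omega
    rcases hb3 with rfl | rfl | rfl
    · have hm1 : m < 1 := hm
      have hn1 : n < 1 := hn
      clear hm hn
      interval_cases m <;> interval_cases n
      · exact ⟨_, _, gls33_ok, c3030⟩
    · have hm1 : m < 1 := hm
      have hn1 : n < 4 := hn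
      clear hm hn
      interval_cases m <;> interval_cases n
      · exact ⟨_, _, gls34_ok, c3040⟩
      · exact ⟨_, _, gls34_ok, c3041⟩
      · exact ⟨_, _, gls34_ok, c3042⟩
      · exact ⟨_, _, gls34_ok, c3043⟩
    · have hm1 : m < 1 := hm
      have hn1 : n < 8 := hn
      clear hm hn
      interval_cases m <;> interval_cases n
      · exact ⟨_, _, gls35_ok, c3050⟩
      · exact ⟨_, _, gls35_ok, c3051⟩
      · exact ⟨_, _, gls35_ok, c3052⟩
      · exact ⟨_, _, gls35_ok, c3053⟩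
      · exact ⟨_, _, gls35_ok, c3054⟩
      · exact ⟨_, _, gls35_ok, c3055⟩
      · exact ⟨_, _, gls35_ok, c3056⟩
      · exact ⟨_, _, gls35_ok, c3057⟩
  · have hb3 : b = 4 ∨ b = 5 := by omega
    rcases hb3 with rfl | rfl
    · have hm1 : m < 4 := hm
      have hn1 : n < 4 := hn
      clear hm hn
      interval_cases m <;> interval_cases n
      · exact ⟨_, _, gls44_ok, c4040⟩
      · exact ⟨_, _, gls44_ok, c4041⟩
      · exact ⟨_, _, gls44_ok, c4042⟩
      · exact ⟨_, _, gls44_ok, c4043⟩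
      · omega
      · exact ⟨_, _, gls44_ok, c4141⟩
      · exact ⟨_, _, gls44_ok, c4142⟩
      · exact ⟨_, _, gls44_ok, c4143⟩
      · omega
      · omega
      · exact ⟨_, _, gls44_ok, c4242⟩
      · exact ⟨_, _, gls44_ok, c4243⟩
      · omega
      · omega
      · omega
      · exact ⟨_, _, gls44_ok, c4343⟩
    · have hm1 : m < 4 := hm
      have hn1 : n < 8 := hn
      clear hm hn
      interval_cases m <;> interval_cases n
      · exact ⟨_, _, gls45_ok, c4050⟩
      · exact ⟨_, _, gls45_ok, c4051⟩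
      · exact ⟨_, _, gls45_ok, c4052⟩
      · exact ⟨_, _, gls45_ok, c4053⟩
      · exact ⟨_, _, gls45_ok, c4054⟩
      · exact ⟨_, _, gls45_ok, c4055⟩
      · exact ⟨_, _, gls45_ok, c4056⟩
      · exact ⟨_, _, gls45_ok, c4057⟩
      · exact ⟨_, _, gls45_ok, c4150⟩
      · exact ⟨_, _, gls45_ok, c4151⟩
      · exact ⟨_, _, gls45_ok, c4152⟩
      · exact ⟨_, _, gls45_ok, c4153⟩
      · exact ⟨_, _, gls45_ok, c4154⟩
      · exact ⟨_, _, gls45_ok, c4155⟩
      · exact ⟨_, _, gls45_ok, c4156⟩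
      · exact ⟨_, _, gls45_ok, c4157⟩
      · exact ⟨_, _, gls45_ok, c4250⟩
      · exact ⟨_, _, gls45_ok, c4251⟩
      · exact ⟨_, _, gls45_ok, c4252⟩
      · exact ⟨_, _, gls45_ok, c4253⟩
      · exact ⟨_, _, gls45_ok, c4254⟩
      · exact ⟨_, _, gls45_ok, c4255⟩
      · exact ⟨_, _, gls45_ok, c4256⟩
      · exact ⟨_, _, gls45_ok, c4257⟩
      · exact ⟨_, _, gls45_ok, c4350⟩
      · exact ⟨_, _, gls45_ok, c4351⟩
      · exact ⟨_, _, gls45_ok, c4352⟩
      · exact ⟨_, _, gls45_ok, c4353⟩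
      · exact ⟨_, _, gls45_ok, c4354⟩
      · exact ⟨_, _, gls45_ok, c4355⟩
      · exact ⟨_, _, gls45_ok, c4356⟩
      · exact ⟨_, _, gls45_ok, c4357⟩
  · have hb3 : b = 5 := by omega
    rcases hb3 with rfl
    · have hm1 : m < 8 := hm
      have hn1 : n < 8 := hn
      clear hm hn
      interval_cases m <;> interval_cases n
      · exact ⟨_, _, gls55_ok, c5050⟩
      · exact ⟨_, _, gls55_ok, c5051⟩
      · exact ⟨_, _, gls55_ok, c5052⟩
      · exact ⟨_, _, gls55_ok, c5053⟩
      · exact ⟨_, _, gls55_ok, c5054⟩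
      · exact ⟨_, _, gls55_ok, c5055⟩
      · exact ⟨_, _, gls55_ok, c5056⟩
      · exact ⟨_, _, gls55_ok, c5057⟩
      · omega
      · exact ⟨_, _, gls55_ok, c5151⟩
      · exact ⟨_, _, gls55_ok, c5152⟩
      · exact ⟨_, _, gls55_ok, c5153⟩
      · exact ⟨_, _, gls55_ok, c5154⟩
      · exact ⟨_, _, gls55_ok, c5155⟩
      · exact ⟨_, _, gls55_ok, c5156⟩
      · exact ⟨_, _, gls55_ok, c5157⟩
      · omega
      · omega
      · exact ⟨_, _, gls55_ok, c5252⟩
      · exact ⟨_, _, gls55_ok, c5253⟩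
      · exact ⟨_, _, gls55_ok, c5254⟩
      · exact ⟨_, _, gls55_ok, c5255⟩
      · exact ⟨_, _, gls55_ok, c5256⟩
      · exact ⟨_, _, gls55_ok, c5257⟩
      · omega
      · omega
      · omega
      · exact ⟨_, _, gls55_ok, c5353⟩
      · exact ⟨_, _, gls55_ok, c5354⟩
      · exact ⟨_, _, gls55_ok, c5355⟩
      · exact ⟨_, _, gls55_ok, c5356⟩
      · exact ⟨_, _, gls55_ok, c5357⟩
      · omega
      · omega
      · omega
      · omega
      · exact ⟨_, _, gls55_ok, c5454⟩
      · exact ⟨_, _, gls55_ok, c5455⟩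
      · exact ⟨_, _, gls55_ok, c5456⟩
      · exact ⟨_, _, gls55_ok, c5457⟩
      · omega
      · omega
      · omega
      · omega
      · omega
      · exact ⟨_, _, gls55_ok, c5555⟩
      · exact ⟨_, _, gls55_ok, c5556⟩
      · exact ⟨_, _, gls55_ok, c5557⟩
      · omega
      · omega
      · omega
      · omega
      · omega
      · omega
      · exact ⟨_, _, gls55_ok, c5656⟩
      · exact ⟨_, _, gls55_ok, c5657⟩
      · omega
      · omega
      · omega
      · omega
      · omega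
      · omega
      · omega
      · exact ⟨_, _, gls55_ok, c5757⟩

end Pool.Agent.TH412.PF
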