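import Pool.Agent.TH412.PF.Glue

/-!
Graphs without cuts of size less than three.
-/

set_option autoImplicit false

namespace Pool.Agent.TH412.PF

open Finset

lemma set_nonempty {V : Type} : ∀ U : Tr V, U.set.Nonempty
  | .leaf v => ⟨v, rfl⟩
  | .node l r => by
      obtain ⟨v, hv⟩ := set_nonempty l
      exact ⟨v, Or.inl hv⟩

lemma width_card {V E : Type} [Fintype E] (s t : E → V) (w : ℕ) (U : Tr V)
    (h : U.Width s t w) : (cut s t U.set).card ≤ w := by
  cases U with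
  | leaf v => exact h
  | node l r => exact h.1

/-- The vertices outside a piece are connected. -/
lemma conn_rest {V E : Type} [Fintype E] (s t : E → V) (A U : Set V)
    (hE : ∀ e, s e ∈ A ∧ t e ∈ A) (hU : U ⊆ A) (hU1 : U.Nonempty)
    (hC : ∀ Z : Set V, (∃ v ∈ A, v ∈ Z) → (∃ v ∈ A, v ∉ Z) → 3 ≤ (cut s t Z).card)
    (hout : ∃ v ∈ A, v ∉ U) (h5 : (cut s t U).card ≤ 5) : Conn s t (A \ U) := by
  classical
  refine ⟨by obtain ⟨v, h1, h2⟩ := hout; exact ⟨v, h1, h2⟩, ?_⟩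
  intro Z hZ hZ1 hZ2
  by_contra hno
  obtain ⟨u, hu⟩ := hU1
  have hZA : ∀ z ∈ Z, z ∈ A ∧ z ∉ U := fun z hz => hZ hz
  have h1 : 3 ≤ (cut s t Z).card := by
    refine hC Z ?_ ⟨u, hU hu, fun h => (hZA u h).2 hu⟩
    obtain ⟨z, hz⟩ := hZ1
    exact ⟨z, (hZA z hz).1, hz⟩
  obtain ⟨W, hW⟩ : ∃ W, W = (A \ U) \ Z := ⟨_, rfl⟩
  have hWne : W.Nonempty := by
    rw [hW, Set.sdiff_nonempty]
    intro h
    exact hZ2 (Set.Subset.antisymm hZ h)
  have hWA : ∀ z ∈ W, z ∈ A ∧ z ∉ U ∧ z ∉ Z := by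
    intro z hz
    rw [hW] at hz
    exact ⟨hz.1.1, hz.1.2, hz.2⟩
  have h2 : 3 ≤ (cut s t W).card := by
    refine hC W ?_ ⟨u, hU hu, fun h => (hWA u h).2.1 hu⟩
    obtain ⟨z, hz⟩ := hWne
    exact ⟨z, (hWA z hz).1, hz⟩
  have hinW : ∀ z ∈ A, z ∉ U → z ∉ Z → z ∈ W := by
    intro z h1 h2 h3
    rw [hW]
    exact ⟨⟨h1, h2⟩, h3⟩
  rw [← hW] at hno
  have hnoe : ∀ e, ¬ (s e ∈ Z ∧ t e ∈ W) ∧ ¬ (t e ∈ Z ∧ s e ∈ W) := by
    intro e
    constructor
    · exact fun h => hno ⟨e, Or.inl h⟩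
    · exact fun h => hno ⟨e, Or.inr h⟩
  have hother : ∀ p q : Prop, ¬ (p ↔ q) → ¬ p → q := by
    intro p q h1 h2
    by_contra h3
    exact h1 ⟨fun h => absurd h h2, fun h => absurd h h3⟩
  have hother2 : ∀ p q : Prop, ¬ (p ↔ q) → p → ¬ q := by
    intro p q h1 h2 h3
    exact h1 ⟨fun _ => h3, fun _ => h2⟩
  have hsub : cut s t Z ∪ cut s t W ⊆ cut s t U := by
    intro e he
    rw [Finset.mem_union, mem_cut, mem_cut] at he
    rw [mem_cut]
    obtain ⟨e1, e2⟩ := hnoe e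
    rcases he with he | he
    · by_cases hs : s e ∈ Z
      · have ht := hother2 _ _ he hs
        by_cases hu' : t e ∈ U
        · exact fun h => (hZA _ hs).2 (h.2 hu')
        · exact absurd ⟨hs, hinW _ (hE e).2 hu' ht⟩ e1
      · have ht := hother _ _ he hs
        by_cases hu' : s e ∈ U
        · exact fun h => (hZA _ ht).2 (h.1 hu')
        · exact absurd ⟨ht, hinW _ (hE e).1 hu' hs⟩ e2
    · by_cases hs : s e ∈ W
      · have ht := hother2 _ _ he hs
        by_cases hu' : t e ∈ U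
        · exact fun h => (hWA _ hs).2.1 (h.2 hu')
        · by_cases hz : t e ∈ Z
          · exact absurd ⟨hz, hs⟩ e2
          · exact absurd (hinW _ (hE e).2 hu' hz) ht
      · have ht := hother _ _ he hs
        by_cases hu' : s e ∈ U
        · exact fun h => (hWA _ ht).2.1 (h.1 hu')
        · by_cases hz : s e ∈ Z
          · exact absurd ⟨hz, ht⟩ e1
          · exact absurd (hinW _ (hE e).1 hu' hz) hs
  have hdis : Disjoint (cut s t Z) (cut s t W) := by
    rw [Finset.disjoint_left]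
    intro e he1 he2
    rw [mem_cut] at he1 he2
    obtain ⟨e1, e2⟩ := hnoe e
    by_cases hs : s e ∈ Z
    · have hsW : s e ∉ W := fun h => (hWA _ h).2.2 hs
      exact e1 ⟨hs, hother _ _ he2 hsW⟩
    · have ht := hother _ _ he1 hs
      have htW : t e ∉ W := fun h => (hWA _ h).2.2 ht
      by_cases hsW : s e ∈ W
      · exact e2 ⟨ht, hsW⟩
      · exact htW (hother _ _ he2 hsW)
  have h3 := Finset.card_le_card hsub
  rw [Finset.card_union_of_disjoint hdis] at h3
  omega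

lemma key' (hL : StmLeaf) (hJ : StmJoin) {V E : Type} [Fintype E] (s t : E → V) (A : Set V)
    (hE : ∀ e, s e ∈ A ∧ t e ∈ A) (hP : ¬ HasPet s t)
    (hC : ∀ Z : Set V, (∃ v ∈ A, v ∈ Z) → (∃ v ∈ A, v ∉ Z) → 3 ≤ (cut s t Z).card) :
    ∀ U : Tr V, U.Nodup → U.Width s t 5 → U.set ⊆ A → (∃ v ∈ A, v ∉ U.set) →
      HasC s t U.set (cut s t U.set).card ∧ 3 ≤ (cut s t U.set).card ∧
        (cut s t U.set).card ≤ 5 := by
  intro U
  induction U with
  | leaf v =>
      intro _ hW hA hv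
      have h3 : 3 ≤ (cut s t (Tr.leaf v).set).card := by
        obtain ⟨w, hw⟩ := set_nonempty (Tr.leaf v)
        exact hC _ ⟨w, hA hw, hw⟩ hv
      have h5 := width_card s t 5 _ hW
      exact ⟨hL V E s t v h3 h5, h3, h5⟩
  | node l r ihl ihr =>
      intro hN hW hA hv
      have h3 : 3 ≤ (cut s t (Tr.node l r).set).card := by
        obtain ⟨w, hw⟩ := set_nonempty (Tr.node l r)
        exact hC _ ⟨w, hA hw, hw⟩ hv
      have h5 := width_card s t 5 _ hW
      have hrest := conn_rest s t A (l.set ∪ r.set) hE hA (set_nonempty (Tr.node l r)) hC hv h5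
      obtain ⟨v, hvA, hvU⟩ := hv
      have hvl : v ∉ l.set := fun h => hvU (Or.inl h)
      have hvr : v ∉ r.set := fun h => hvU (Or.inr h)
      obtain ⟨l1, l2, l3⟩ := ihl hN.2.1 hW.2.1 (fun x hx => hA (Or.inl hx)) ⟨v, hvA, hvl⟩
      obtain ⟨r1, r2, r3⟩ := ihr hN.2.2 hW.2.2 (fun x hx => hA (Or.inr hx)) ⟨v, hvA, hvr⟩
      have hall : l.set ∪ r.set ∪ (A \ (l.set ∪ r.set)) = A := Set.union_sdiff_cancel hA
      exact ⟨hJ V E s t l.set r.set (A \ (l.set ∪ r.set)) _ _ hN.1 Set.disjoint_sdiff_right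
        (by rw [hall]; exact hE) (fun _ => hrest) hP l1 r1 l2 l3 r2 r3 (Or.inr ⟨h3, h5⟩), h3, h5⟩

theorem three : StmLeaf → StmJoin → StmThree := by
  intro hL hJ V E _ s t T hN hW hE hP hC
  cases T with
  | leaf v =>
      refine ⟨fun _ => 0, fun _ => by norm_num, ?_⟩
      intro w hw i _
      unfold bd
      apply Finset.sum_eq_zero
      intro e _
      have hw' : w = v := hw
      have h1 : s e = w := by rw [hw']; exact (hE e).1
      have h2 : t e = w := by rw [hw']; exact (hE e).2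
      rw [if_pos h1, if_pos h2]
      have h3 : (1 + 1 : ZMod 2) = 0 := by decide
      rw [h3, mul_zero]
  | node l r =>
      obtain ⟨w, hw⟩ := set_nonempty r
      obtain ⟨u, hu⟩ := set_nonempty l
      have hwl : w ∉ l.set := fun h => Set.disjoint_left.mp hN.1 h hw
      have hur : u ∉ r.set := fun h => Set.disjoint_left.mp hN.1 hu h
      obtain ⟨l1, l2, l3⟩ := key' hL hJ s t _ hE hP hC l hN.2.1 hW.2.1 (fun x hx => Or.inl hx)
        ⟨w, Or.inr hw, hwl⟩
      obtain ⟨r1, r2, r3⟩ := key' hL hJ s t _ hE hP hC r hN.2.2 hW.2.2 (fun x hx => Or.inr hx)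
        ⟨u, Or.inl hu, hur⟩
      have hcut : (cut s t (l.set ∪ r.set)).card = 0 := by
        rw [Finset.card_eq_zero, Finset.eq_empty_iff_forall_notMem]
        intro e he
        rw [mem_cut] at he
        exact he ⟨fun _ => (hE e).2, fun _ => (hE e).1⟩
      have hj := hJ V E s t l.set r.set ∅ _ _ hN.1 (Set.disjoint_empty _) (by
        rw [Set.union_empty]; exact hE) (fun h => absurd hcut h) hP l1 r1 l2 l3 r2 r3 (Or.inl hcut)
      rw [hcut] at hj
      obtain ⟨o, _, m, hm, hst, _⟩ := hj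
      have hnb : nb 0 = 1 := by decide +kernel
      have hm0 : m = 0 := by omega
      subst hm0
      have htl : tl 0 0 = 1 := by decide +kernel
      obtain ⟨f, hf, _⟩ := hst 0 (by rw [htl]; norm_num)
      exact ⟨f, hf⟩

end Pool.Agent.TH412.PF
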