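import Pool.Agent.TH412.PF.Defs

/-!
Soundness of the list functions, connected sets, classes of a family of connected sets.
-/

set_option autoImplicit false

open Finset

namespace Pool.Agent.TH412.PF

theorem cond_true_iff (a b : Bool) : cond a b false = true ↔ a = true ∧ b = true := by
  cases a <;> simp

theorem cond_or_iff (a b : Bool) : cond a true b = true ↔ a = true ∨ b = true := by
  cases a <;> simp

theorem allN_iff (f : ℕ → Bool) : ∀ k, allN f k = true ↔ ∀ i < k, f i = true := by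
  intro k
  induction k with
  | zero => simp [allN]
  | succ k ih =>
    have : allN f (k + 1) = cond (f k) (allN f k) false := rfl
    rw [this, cond_true_iff, ih]
    constructor
    · rintro ⟨h1, h2⟩ i hi
      rcases Nat.lt_succ_iff_lt_or_eq.1 hi with h | rfl
      · exact h2 i h
      · exact h1
    · exact fun h => ⟨h k (Nat.lt_succ_self k), fun i hi => h i (Nat.lt_succ_of_lt hi)⟩

theorem anyN_iff (f : ℕ → Bool) : ∀ k, anyN f k = true ↔ ∃ i < k, f i = true := by
  intro k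
  induction k with
  | zero => simp [anyN]
  | succ k ih =>
    have : anyN f (k + 1) = cond (f k) true (anyN f k) := rfl
    rw [this, cond_or_iff, ih]
    constructor
    · rintro (h | ⟨i, hi, h⟩)
      · exact ⟨k, Nat.lt_succ_self k, h⟩
      · exact ⟨i, Nat.lt_succ_of_lt hi, h⟩
    · rintro ⟨i, hi, h⟩
      rcases Nat.lt_succ_iff_lt_or_eq.1 hi with h1 | rfl
      · exact Or.inr ⟨i, h1, h⟩
      · exact Or.inl h

theorem allL_iff {α : Type} (f : α → Bool) : ∀ l : List α, allL f l = true ↔ ∀ x ∈ l, f x = true := by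
  intro l
  induction l with
  | nil => simp [allL]
  | cons x l ih =>
    have : allL f (x :: l) = cond (f x) (allL f l) false := rfl
    rw [this, cond_true_iff, ih, List.forall_mem_cons]

theorem anyL_iff {α : Type} (f : α → Bool) : ∀ l : List α, anyL f l = true ↔ ∃ x ∈ l, f x = true := by
  intro l
  induction l with
  | nil => simp [anyL]
  | cons x l ih =>
    have : anyL f (x :: l) = cond (f x) true (anyL f l) := rfl
    rw [this, cond_or_iff, ih]
    simp

theorem mem_filL {α : Type} (f : α → Bool) (y : α) : ∀ l : List α,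
    y ∈ filL f l ↔ y ∈ l ∧ f y = true := by
  intro l
  induction l with
  | nil => simp [filL]
  | cons x l ih =>
    have : filL f (x :: l) = cond (f x) (x :: filL f l) (filL f l) := rfl
    rw [this]
    cases h : f x
    · rw [cond_false, ih]
      constructor
      · exact fun h1 => ⟨List.mem_cons_of_mem _ h1.1, h1.2⟩
      · rintro ⟨h1, h2⟩
        rcases List.mem_cons.1 h1 with rfl | h1
        · rw [h] at h2; exact absurd h2 (by simp)
        · exact ⟨h1, h2⟩
    · rw [cond_true, List.mem_cons, ih]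
      constructor
      · rintro (rfl | h1)
        · exact ⟨List.mem_cons_self, h⟩
        · exact ⟨List.mem_cons_of_mem _ h1.1, h1.2⟩
      · rintro ⟨h1, h2⟩
        rcases List.mem_cons.1 h1 with rfl | h1
        · exact Or.inl rfl
        · exact Or.inr ⟨h1, h2⟩

theorem mem_rgN (i : ℕ) : ∀ k, i ∈ rgN k ↔ i < k := by
  intro k
  induction k with
  | zero => simp [rgN]
  | succ k ih =>
    have : rgN (k + 1) = k :: rgN k := rfl
    rw [this, List.mem_cons, ih]
    omega

theorem getL_mem {α : Type} (d : α) : ∀ (l : List α) (i : ℕ), getL d l i = d ∨ getL d l i ∈ l := by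
  intro l
  induction l with
  | nil => intro i; exact Or.inl rfl
  | cons x l ih =>
    intro i
    cases i with
    | zero => exact Or.inr List.mem_cons_self
    | succ i =>
      have : getL d (x :: l) (i + 1) = getL d l i := rfl
      rw [this]
      rcases ih i with h | h
      · exact Or.inl h
      · exact Or.inr (List.mem_cons_of_mem _ h)

section
variable {V E : Type}

theorem Lk.symm {s t : E → V} {A B : Set V} (h : Lk s t A B) : Lk s t B A := by
  obtain ⟨e, h | h⟩ := h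
  · exact ⟨e, Or.inr ⟨h.2, h.1⟩⟩
  · exact ⟨e, Or.inl ⟨h.2, h.1⟩⟩

theorem Lk.mono {s t : E → V} {A B A' B' : Set V} (h : Lk s t A B) (hA : A ⊆ A') (hB : B ⊆ B') :
    Lk s t A' B' := by
  obtain ⟨e, h | h⟩ := h
  · exact ⟨e, Or.inl ⟨hA h.1, hB h.2⟩⟩
  · exact ⟨e, Or.inr ⟨hA h.1, hB h.2⟩⟩

/-- A connected set and connected sets joined to it. -/
theorem conn_family {s t : E → V} {U : Set V} (hU : Conn s t U) {ι : Type} (W : ι → Set V)
    (hW : ∀ i, Conn s t (W i) ∧ Lk s t U (W i)) : Conn s t (U ∪ ⋃ i, W i) := by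
  refine ⟨hU.1.mono Set.subset_union_left, fun Z hZ hZ1 hZ2 => ?_⟩
  by_contra hno
  have hpiece : ∀ P : Set V, P ⊆ U ∪ ⋃ i, W i → Conn s t P → P ⊆ Z ∨ Disjoint P Z := by
    intro P hP hc
    by_contra hcon
    rw [not_or] at hcon
    obtain ⟨h1, h2⟩ := hcon
    rw [Set.not_disjoint_iff] at h2
    obtain ⟨x, hx1, hx2⟩ := h2
    have h3 := hc.2 (Z ∩ P) Set.inter_subset_right ⟨x, hx2, hx1⟩ (fun h => h1 (by
      rw [← h]; exact Set.inter_subset_left))
    refine hno (h3.mono Set.inter_subset_left ?_)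
    rintro y ⟨hy1, hy2⟩
    exact ⟨hP hy1, fun hy3 => hy2 ⟨hy3, hy1⟩⟩
  have hWs : ∀ i, W i ⊆ U ∪ ⋃ i, W i := fun i => (Set.subset_iUnion W i).trans Set.subset_union_right
  rcases hpiece U Set.subset_union_left hU with hUZ | hUZ
  · apply hZ2
    refine Set.Subset.antisymm hZ ?_
    rintro y (hy | hy)
    · exact hUZ hy
    · rw [Set.mem_iUnion] at hy
      obtain ⟨i, hi⟩ := hy
      rcases hpiece (W i) (hWs i) (hW i).1 with h | h
      · exact h hi
      · exfalso
        refine hno ((hW i).2.mono hUZ ?_)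
        intro z hz
        exact ⟨hWs i hz, fun h' => Set.disjoint_left.1 h hz h'⟩
  · obtain ⟨z, hz⟩ := hZ1
    rcases hZ hz with hz' | hz'
    · exact Set.disjoint_left.1 hUZ hz' hz
    · rw [Set.mem_iUnion] at hz'
      obtain ⟨i, hi⟩ := hz'
      rcases hpiece (W i) (hWs i) (hW i).1 with h | h
      · refine hno ((hW i).2.symm.mono h ?_)
        intro y hy
        exact ⟨Or.inl hy, fun h' => Set.disjoint_left.1 hUZ hy h'⟩
      · exact Set.disjoint_left.1 h hi hz

/-- The union of the sets with numbers in a list. -/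
def UL (B : ℕ → Set V) (D : List ℕ) : Set V := {v | ∃ x ∈ D, v ∈ B x}

theorem lnk_sound {s t : E → V} {n : ℕ} {L : List (ℕ × ℕ)} {B : ℕ → Set V}
    (hL : ∀ p ∈ L, p.1 < n → p.2 < n → Lk s t (B p.1) (B p.2)) {x y : ℕ} (hx : x < n) (hy : y < n)
    (h : lnk L x y = true) : Lk s t (B x) (B y) := by
  unfold lnk at h
  rw [Bool.or_eq_true, anyL_iff, anyL_iff] at h
  rcases h with ⟨p, hp, h⟩ | ⟨p, hp, h⟩
  · rw [cond_true_iff, Nat.beq_eq, Nat.beq_eq] at h
    have h1 := hL p hp (by omega) (by omega)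
    rw [h.1, h.2] at h1
    exact h1
  · rw [cond_true_iff, Nat.beq_eq, Nat.beq_eq] at h
    have h1 := hL p hp (by omega) (by omega)
    rw [h.1, h.2] at h1
    exact h1.symm

theorem grow_sound {s t : E → V} {n : ℕ} {L : List (ℕ × ℕ)} {B : ℕ → Set V}
    (hL : ∀ p ∈ L, p.1 < n → p.2 < n → Lk s t (B p.1) (B p.2)) {S D : List ℕ}
    (hS : ∀ x ∈ S, x < n ∧ Conn s t (B x)) (hD : ∀ x ∈ D, x ∈ S) (hc : Conn s t (UL B D)) :
    (∀ x ∈ grow L S D, x ∈ S) ∧ Conn s t (UL B (grow L S D)) := by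
  unfold grow
  constructor
  · intro x hx
    rcases List.mem_append.1 hx with h | h
    · exact hD x h
    · exact ((mem_filL _ _ _).1 h).1
  · obtain ⟨F, hF⟩ : ∃ F, F = filL (fun x => cond (anyL (fun y => Nat.beq y x) D) false
      (anyL (fun y => lnk L x y) D)) S := ⟨_, rfl⟩
    rw [← hF]
    have hmem : ∀ x ∈ F, x ∈ S ∧ ∃ y ∈ D, lnk L x y = true := by
      intro x hx
      rw [hF, mem_filL] at hx
      refine ⟨hx.1, ?_⟩
      have h := hx.2
      cases h1 : anyL (fun y => Nat.beq y x) D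
      · rw [h1, cond_false, anyL_iff] at h
        exact h
      · rw [h1, cond_true] at h
        exact absurd h (by simp)
    have h1 : UL B (D ++ F) = UL B D ∪ ⋃ i : {x // x ∈ F}, B i.1 := by
      ext v
      simp only [UL, Set.mem_setOf_eq, List.mem_append, Set.mem_union, Set.mem_iUnion,
        Subtype.exists, exists_prop]
      constructor
      · rintro ⟨x, hx | hx, hv⟩
        · exact Or.inl ⟨x, hx, hv⟩
        · exact Or.inr ⟨x, hx, hv⟩
      · rintro (⟨x, hx, hv⟩ | ⟨x, hx, hv⟩)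
        · exact ⟨x, Or.inl hx, hv⟩
        · exact ⟨x, Or.inr hx, hv⟩
    rw [h1]
    refine conn_family hc _ ?_
    rintro ⟨x, hx⟩
    obtain ⟨h2, y, hy, h3⟩ := hmem x hx
    refine ⟨(hS x h2).2, ?_⟩
    have h4 := lnk_sound hL (hS x h2).1 (hS y (hD y hy)).1 h3
    refine h4.symm.mono ?_ (Set.Subset.refl _)
    intro v hv
    exact ⟨y, hy, hv⟩

theorem grows_sound {s t : E → V} {n : ℕ} {L : List (ℕ × ℕ)} {B : ℕ → Set V}
    (hL : ∀ p ∈ L, p.1 < n → p.2 < n → Lk s t (B p.1) (B p.2)) {S : List ℕ}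
    (hS : ∀ x ∈ S, x < n ∧ Conn s t (B x)) : ∀ (k : ℕ) (D : List ℕ), (∀ x ∈ D, x ∈ S) →
    Conn s t (UL B D) → (∀ x ∈ grows L S k D, x ∈ S) ∧ Conn s t (UL B (grows L S k D)) := by
  intro k
  induction k with
  | zero => intro D hD hc; exact ⟨hD, hc⟩
  | succ k ih =>
    intro D hD hc
    have : grows L S (k + 1) D = grows L S k (grow L S D) := rfl
    rw [this]
    obtain ⟨h1, h2⟩ := grow_sound hL hS hD hc
    exact ih _ h1 h2

theorem conB_sound {s t : E → V} {n : ℕ} {L : List (ℕ × ℕ)} {B : ℕ → Set V}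
    (hL : ∀ p ∈ L, p.1 < n → p.2 < n → Lk s t (B p.1) (B p.2)) {S : List ℕ}
    (hS : ∀ x ∈ S, x < n ∧ Conn s t (B x)) (h : conB L S = true) : Conn s t (UL B S) := by
  cases S with
  | nil => exact absurd h (by simp [conB])
  | cons x S' =>
    have h' : allL (fun y => anyL (fun z => Nat.beq z y)
      (grows L (x :: S') S'.length [x])) S' = true := h
    rw [allL_iff] at h'
    obtain ⟨h1, h2⟩ := grows_sound hL hS S'.length [x] (by
      intro y hy
      rw [List.mem_singleton] at hy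
      rw [hy]
      exact List.mem_cons_self) (by
      have : UL B [x] = B x := by
        ext v
        simp [UL]
      rw [this]
      exact (hS x List.mem_cons_self).2)
    obtain ⟨R, hR⟩ : ∃ R, R = grows L (x :: S') S'.length [x] := ⟨_, rfl⟩
    rw [← hR] at h1 h2 h'
    have hx : ∀ (k : ℕ) (D : List ℕ), x ∈ D → x ∈ grows L (x :: S') k D := by
      intro k
      induction k with
      | zero => intro D hD; exact hD
      | succ k ih =>
        intro D hD
        exact ih _ (List.mem_append_left _ hD)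
    have hxR : x ∈ R := by
      rw [hR]
      exact hx _ _ (List.mem_singleton.2 rfl)
    have : UL B (x :: S') = UL B R := by
      ext v
      constructor
      · rintro ⟨y, hy, hv⟩
        rcases List.mem_cons.1 hy with rfl | hy
        · exact ⟨y, hxR, hv⟩
        · have h3 := h' y hy
          rw [anyL_iff] at h3
          obtain ⟨z, hz, hzy⟩ := h3
          rw [Nat.beq_eq] at hzy
          subst hzy
          exact ⟨z, hz, hv⟩
      · rintro ⟨y, hy, hv⟩
        exact ⟨y, h1 y hy, hv⟩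
    rw [this]
    exact h2

/-- The classes of a family of connected sets. -/
theorem chkM_sound {s t : E → V} {n : ℕ} {L : List (ℕ × ℕ)} {B : ℕ → Set V} {F m : ℕ}
    {HH : ℕ → ℕ → Bool} {L' H' : List (ℕ × ℕ)}
    (hL : ∀ p ∈ L, p.1 < n → p.2 < n → Lk s t (B p.1) (B p.2))
    (hB : ∀ x < n, nib F x < m → Conn s t (B x))
    (hd : ∀ x < n, ∀ y < n, x ≠ y → Disjoint (B x) (B y))
    (h : chkM n L HH F m L' H' = true) :
    ∃ B' : ℕ → Set V, (∀ u < m, ∀ v, v ∈ B' u ↔ ∃ x < n, nib F x = u ∧ v ∈ B x) ∧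
      (∀ u < m, Conn s t (B' u)) ∧ (∀ u < m, ∀ w < m, u ≠ w → Disjoint (B' u) (B' w)) ∧
      (∀ q ∈ L', q.1 < m ∧ q.2 < m ∧ Lk s t (B' q.1) (B' q.2)) ∧
      (∀ q ∈ H', q.1 < m ∧ ∃ x < n, nib F x = q.1 ∧ HH x q.2 = true) := by
  unfold chkM at h
  rw [cond_true_iff, cond_true_iff] at h
  obtain ⟨h1, h2, h3⟩ := h
  rw [allN_iff] at h1
  rw [allL_iff] at h2 h3
  refine ⟨fun u => UL B (filL (fun x => Nat.beq (nib F x) u) (rgN n)), ?_, ?_, ?_, ?_, ?_⟩
  · intro u _ v
    simp only [UL, Set.mem_setOf_eq, mem_filL, mem_rgN, Nat.beq_eq]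
    constructor
    · rintro ⟨x, ⟨h4, h5⟩, h6⟩
      exact ⟨x, h4, h5, h6⟩
    · rintro ⟨x, h4, h5, h6⟩
      exact ⟨x, ⟨h4, h5⟩, h6⟩
  · intro u hu
    refine conB_sound hL ?_ (h1 u hu)
    intro x hx
    rw [mem_filL, mem_rgN, Nat.beq_eq] at hx
    exact ⟨hx.1, hB x hx.1 (by omega)⟩
  · intro u hu w hw huw
    rw [Set.disjoint_left]
    rintro v ⟨x, hx, hv⟩ ⟨y, hy, hv'⟩
    rw [mem_filL, mem_rgN, Nat.beq_eq] at hx hy
    have hxy : x ≠ y := by
      rintro rfl
      exact huw (hx.2.symm.trans hy.2)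
    exact Set.disjoint_left.1 (hd x hx.1 y hy.1 hxy) hv hv'
  · intro q hq
    have h4 := h2 q hq
    rw [cond_true_iff, cond_true_iff, Nat.ble_eq, Nat.ble_eq, anyL_iff] at h4
    obtain ⟨h5, h6, p, hp, h7⟩ := h4
    rw [cond_true_iff, cond_true_iff, Nat.ble_eq, Nat.ble_eq, Bool.or_eq_true, cond_true_iff,
      cond_true_iff, Nat.beq_eq, Nat.beq_eq, Nat.beq_eq, Nat.beq_eq] at h7
    obtain ⟨h8, h9, h10⟩ := h7
    refine ⟨h5, h6, ?_⟩
    have hl := hL p hp h8 h9
    have hin : ∀ x, x < n → ∀ u, nib F x = u →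
        B x ⊆ UL B (filL (fun x => Nat.beq (nib F x) u) (rgN n)) := by
      intro x hx u hxu v hv
      exact ⟨x, (mem_filL _ _ _).2 ⟨(mem_rgN _ _).2 hx, by rw [Nat.beq_eq]; exact hxu⟩, hv⟩
    rcases h10 with ⟨h11, h12⟩ | ⟨h11, h12⟩
    · exact hl.mono (hin _ h8 _ h11) (hin _ h9 _ h12)
    · exact hl.symm.mono (hin _ h9 _ h12) (hin _ h8 _ h11)
  · intro q hq
    have h4 := h3 q hq
    rw [cond_true_iff, Nat.ble_eq, anyN_iff] at h4
    obtain ⟨h5, x, hx, h6⟩ := h4
    rw [cond_true_iff, Nat.beq_eq] at h6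
    exact ⟨h5, x, hx, h6⟩

end

end Pool.Agent.TH412.PF
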