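import Mathlib.Data.List.Basic

/-!
Tables for the boundary behaviours of the pieces of width at most five. A colour is `0`, `1` or `2`
(a nonzero element of the group of order four); a state with `k` ends is a list of `k` colours,
packed in base 16; a behaviour is a list of states up to the permutations of the three colours,
together with a list of rooted graphs that are minors of the piece.
-/

set_option autoImplicit false

namespace Pool.Agent.TH412.PF

/-- The `i`-th base-16 digit. -/
def nib (n i : ℕ) : ℕ := Nat.land (Nat.shiftRight n (Nat.mul 4 i)) 15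

/-- Is `i` different from the colour `c`? -/
def mem3 (c i : ℕ) : Bool := !(Nat.beq c i)

/-- The six permutations of the colours, 12 bits each. -/
def PT : ℕ := 0x12102021201120210

/-- The permutation number `p`. -/
def pt (p : ℕ) : ℕ := Nat.land (Nat.shiftRight PT (Nat.mul 12 p)) 4095

/-- A rooted graph: the number of vertices, the edges, the pairs of a vertex and the number of an
end at it. -/
structure RM where
  /-- number of vertices -/
  n : ℕ
  /-- edges -/
  L : List (ℕ × ℕ)
  /-- ends -/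
  H : List (ℕ × ℕ)

/-- The edges of the Petersen graph. -/
def petL : List (ℕ × ℕ) := [(0, 1), (1, 2), (2, 3), (3, 4), (4, 0), (5, 7), (6, 8), (7, 9), (8, 5), (9, 6), (0, 5), (1, 6), (2, 7), (3, 8), (4, 9)]

/-- The number of behaviours with `k` ends. -/
def nb (k : ℕ) : ℕ := [1, 0, 0, 1, 4, 8].getD k 0

/-- The number of states of the behaviour `m` with `k` ends. -/
def tl (k m : ℕ) : ℕ :=
  ([[1], [], [], [1], [4, 3, 2, 2], [10, 7, 7, 6, 5, 5, 4, 3]].getD k []).getD m 0

/-- The states of the behaviour `m` with `k` ends, 20 bits each. -/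
def tp (k m : ℕ) : ℕ :=
  ([[0], [], [], [0x210],
    [0x110010100110000000,
      0x10100110000000,
      0x101001100,
      0x110000000],
    [0x22210112100021012110211100201020010021002010021000,
      0x12110211100201020010021002010021000,
      0x12110211100201020010021002010021000,
      0x2101211021110200102010021000,
      0x201020010021002010021000,
      0x21012110211102001002100,
      0x2010200100210020100,
      0x21002010021000]].getD k []).getD m 0

/-- The rooted graphs of the behaviour `m` with `k` ends. -/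
def ty (k m : ℕ) : List RM :=
  (([[[]], [], [],
    [[⟨1, [], [(0, 0), (0, 1), (0, 2)]⟩]],
    [[⟨1, [], [(0, 0), (0, 1), (0, 2), (0, 3)]⟩],
     [⟨1, [], [(0, 0), (0, 1), (0, 2), (0, 3)]⟩,
      ⟨2, [(0, 1)], [(0, 0), (0, 1), (1, 2), (1, 3)]⟩,
      ⟨2, [(0, 1)], [(0, 0), (1, 1), (0, 2), (1, 3)]⟩],
     [⟨1, [], [(0, 0), (0, 1), (0, 2), (0, 3)]⟩,
      ⟨2, [(0, 1)], [(0, 0), (1, 1), (1, 2), (0, 3)]⟩],
     [⟨1, [], [(0, 0), (0, 1), (0, 2), (0, 3)]⟩,
      ⟨8, [(0, 3), (0, 4), (0, 6), (1, 2), (1, 4), (1, 7), (2, 5), (2, 6), (3, 5), (3, 7)], [(4, 0), (5, 1), (6, 2), (7, 3)]⟩]],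
    [[⟨1, [], [(0, 0), (0, 1), (0, 2), (0, 3), (0, 4)]⟩],
     [⟨1, [], [(0, 0), (0, 1), (0, 2), (0, 3), (0, 4)]⟩,
      ⟨2, [], [(0, 0), (0, 1), (0, 2), (1, 3), (1, 4)]⟩,
      ⟨2, [(0, 1)], [(0, 0), (0, 1), (1, 3), (1, 4)]⟩,
      ⟨2, [(0, 1)], [(0, 0), (0, 2), (1, 3), (1, 4)]⟩,
      ⟨2, [(0, 1)], [(0, 1), (0, 2), (1, 3), (1, 4)]⟩],
     [⟨1, [], [(0, 0), (0, 1), (0, 2), (0, 3), (0, 4)]⟩,
      ⟨7, [(0, 2), (0, 3), (0, 5), (1, 2), (1, 4), (1, 6), (3, 6), (4, 5)], [(2, 0), (3, 1), (4, 2), (5, 3), (6, 4)]⟩],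
     [⟨1, [], [(0, 0), (0, 1), (0, 2), (0, 3), (0, 4)]⟩,
      ⟨7, [(0, 2), (0, 3), (0, 6), (1, 4), (1, 5), (1, 6), (2, 4), (3, 5)], [(2, 0), (3, 1), (4, 2), (5, 3), (6, 4)]⟩],
     [⟨1, [], [(0, 0), (0, 1), (0, 2), (0, 3), (0, 4)]⟩,
      ⟨3, [(0, 1), (0, 2)], [(1, 0), (0, 1), (1, 2), (2, 3), (2, 4)]⟩,
      ⟨3, [(0, 1), (0, 2)], [(1, 0), (1, 1), (0, 2), (2, 3), (2, 4)]⟩],
     [⟨1, [], [(0, 0), (0, 1), (0, 2), (0, 3), (0, 4)]⟩,
      ⟨5, [(0, 3), (0, 4), (1, 2), (1, 4), (2, 3)], [(0, 0), (1, 1), (2, 2), (3, 3), (4, 4)]⟩],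
     [⟨1, [], [(0, 0), (0, 1), (0, 2), (0, 3), (0, 4)]⟩,
      ⟨3, [(0, 1), (0, 2)], [(0, 0), (1, 1), (1, 2), (2, 3), (2, 4)]⟩],
     [⟨1, [], [(0, 0), (0, 1), (0, 2), (0, 3), (0, 4)]⟩,
      ⟨3, [(0, 1), (0, 2)], [(0, 0), (1, 1), (1, 2), (2, 3), (2, 4)]⟩,
      ⟨3, [(0, 1), (0, 2)], [(1, 0), (0, 1), (1, 2), (2, 3), (2, 4)]⟩,
      ⟨3, [(0, 1), (0, 2)], [(1, 0), (1, 1), (0, 2), (2, 3), (2, 4)]⟩,
      ⟨8, [(0, 3), (0, 4), (0, 6), (1, 2), (1, 4), (1, 7), (2, 5), (2, 6), (3, 5), (3, 7)], [(4, 0), (5, 1), (6, 2), (7, 3)]⟩,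
      ⟨8, [(0, 3), (0, 4), (0, 6), (1, 2), (1, 4), (1, 7), (2, 5), (2, 6), (3, 5), (3, 7)], [(4, 0), (5, 1), (6, 2), (7, 4)]⟩]]] : List (List (List RM))).getD k []).getD m []

/-- The state number `i` of a packed behaviour. -/
def stt (M i : ℕ) : ℕ := Nat.land (Nat.shiftRight M (Nat.mul 20 i)) 1048575

/-- All `i < k` satisfy `f`. -/
def allN (f : ℕ → Bool) (k : ℕ) : Bool := Nat.rec true (fun i ih => cond (f i) ih false) k

/-- Some `i < k` satisfies `f`. -/
def anyN (f : ℕ → Bool) (k : ℕ) : Bool := Nat.rec false (fun i ih => cond (f i) true ih) k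

/-- All members of a list satisfy `f`. -/
def allL {α : Type} (f : α → Bool) (l : List α) : Bool :=
  List.rec true (fun x _ ih => cond (f x) ih false) l

/-- Some member of a list satisfies `f`. -/
def anyL {α : Type} (f : α → Bool) (l : List α) : Bool :=
  List.rec false (fun x _ ih => cond (f x) true ih) l

/-- The members that satisfy `f`. -/
def filL {α : Type} (f : α → Bool) (l : List α) : List α :=
  List.rec [] (fun x _ ih => cond (f x) (x :: ih) ih) l

/-- The member number `i`. -/
def getL {α : Type} (d : α) (l : List α) (i : ℕ) : α :=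
  List.rec (fun _ => d) (fun x _ ih i => Nat.rec x (fun j _ => ih j) i) l i

/-- The numbers less than `k`, the largest first, followed by `l`. -/
def rgN (k : ℕ) : List ℕ := Nat.rec [] (fun i ih => i :: ih) k

/-- The numbers less than `k`. -/
def rgU (k : ℕ) : List ℕ := Nat.rec (fun _ => []) (fun _ ih i => i :: ih (Nat.succ i)) k 0

/-- The positions that stay free when the end `x` of the first piece is glued to the end `G x` of
the second one (`b` means not glued); the positions of the second piece are shifted by `a`. -/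
def fr (a b : ℕ) (G : List ℕ) : List ℕ :=
  (List.range a).filter (fun x => Nat.beq (G.getD x b) b) ++
    ((List.range b).filter (fun y => !(anyL (fun z => Nat.beq z y) G))).map (fun y => a + y)

/-- The numbers of ends that occur. -/
def rel (k : ℕ) : Bool := Nat.beq k 0 || (Nat.ble 3 k && Nat.ble k 5)

/-- The code `e` describes the gluing `G`: the number of free ends, the free ends, the gluing. -/
def okG (a b : ℕ) (G : List ℕ) (e : ℕ) : Bool :=
  Nat.beq (Nat.land e 15) (fr a b G).length &&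
  (List.range (fr a b G).length).all (fun i =>
    Nat.beq (nib (Nat.shiftRight e 4) i) ((fr a b G).getD i 0)) &&
  (List.range a).all (fun x => Nat.beq (nib (Nat.shiftRight e 24) x) (G.getD x b))

/-- The codes describe the relevant gluings. -/
def chkG (a b : ℕ) : List (List ℕ) → List ℕ → Bool
  | [], _ => true
  | G :: Gs, es => cond (rel (fr a b G).length)
      (match es with
      | [] => false
      | e :: es' => okG a b G e && chkG a b Gs es')
      (chkG a b Gs es)

/-- All partial injections from `n` ends to `b` ends. -/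
def pats (b : ℕ) : ℕ → List (List ℕ)
  | 0 => [[]]
  | n + 1 => (pats b n).flatMap (fun l => ((List.range (b + 1)).filter
      (fun y => Nat.beq y b || !(anyL (fun z => Nat.beq z y) l))).map (fun y => y :: l))

/-- Colours agree on the glued ends. -/
def gl (a b g P S Q R : ℕ) : Bool :=
  allN (fun x => cond (Nat.beq (nib g x) b) true
    (Nat.beq (nib P (nib S x)) (nib Q (nib R (nib g x))))) a

/-- Colours agree with the state `Z` on the free ends, listed in `c`. -/
def tg (a k c P S Q R Z : ℕ) : Bool :=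
  allN (fun i => cond (Nat.ble a (nib c i))
    (Nat.beq (nib Q (nib R (Nat.sub (nib c i) a))) (nib Z i))
    (Nat.beq (nib P (nib S (nib c i))) (nib Z i))) k

/-- Witness check for one state. -/
def chkU (a b k g c M ml N nl Z u : ℕ) : Bool :=
  cond (Nat.ble (Nat.succ (Nat.land u 15)) ml)
  (cond (Nat.ble (Nat.succ (Nat.land (Nat.shiftRight u 4) 7)) 6)
  (cond (Nat.ble (Nat.succ (Nat.land (Nat.shiftRight u 7) 15)) nl)
  (cond (Nat.ble (Nat.succ (Nat.shiftRight u 11)) 6)
  (cond (gl a b g (pt (Nat.land (Nat.shiftRight u 4) 7)) (stt M (Nat.land u 15))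
    (pt (Nat.shiftRight u 11)) (stt N (Nat.land (Nat.shiftRight u 7) 15)))
  (tg a k c (pt (Nat.land (Nat.shiftRight u 4) 7)) (stt M (Nat.land u 15))
    (pt (Nat.shiftRight u 11)) (stt N (Nat.land (Nat.shiftRight u 7) 15)) Z)
  false) false) false) false) false

/-- Witness checks for `n` states of the packed behaviour `T`, followed by the check `K` of the
rest. -/
def chkL (a b k g c M ml N nl T : ℕ) (K : List ℕ → Bool) (n : ℕ) : ℕ → List ℕ → Bool :=
  Nat.rec (fun _ us => K us) (fun _ ih i us => List.rec false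
    (fun u us' _ => cond (chkU a b k g c M ml N nl (stt T i) u) (ih (Nat.succ i) us') false) us) n

/-- Is there an edge between `x` and `y`? -/
def lnk (L : List (ℕ × ℕ)) (x y : ℕ) : Bool :=
  anyL (fun p => cond (Nat.beq p.1 x) (Nat.beq p.2 y) false) L ||
  anyL (fun p => cond (Nat.beq p.1 y) (Nat.beq p.2 x) false) L

/-- The list `D` and the elements of `S` joined to it. -/
def grow (L : List (ℕ × ℕ)) (S D : List ℕ) : List ℕ :=
  D ++ filL (fun x => cond (anyL (fun y => Nat.beq y x) D) false (anyL (fun y => lnk L x y) D)) S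

/-- Iterated growth. -/
def grows (L : List (ℕ × ℕ)) (S : List ℕ) (k : ℕ) : List ℕ → List ℕ :=
  Nat.rec (fun D => D) (fun _ ih D => ih (grow L S D)) k

/-- Is `S` connected? -/
def conB (L : List (ℕ × ℕ)) (S : List ℕ) : Bool :=
  List.rec false (fun x S' _ => allL (fun y => anyL (fun z => Nat.beq z y)
    (grows L (x :: S') S'.length [x])) S') S

/-- The classes of the first `n` vertices with labels less than `m` are connected and give the
edges `L'` and the ends `H'`. -/
def chkM (n : ℕ) (L : List (ℕ × ℕ)) (HH : ℕ → ℕ → Bool) (F m : ℕ) (L' H' : List (ℕ × ℕ)) : Bool :=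
  cond (allN (fun u => conB L (filL (fun x => Nat.beq (nib F x) u) (rgN n))) m)
  (cond (allL (fun q => cond (Nat.ble (Nat.succ q.1) m) (cond (Nat.ble (Nat.succ q.2) m)
    (anyL (fun p => cond (Nat.ble (Nat.succ p.1) n) (cond (Nat.ble (Nat.succ p.2) n)
      ((cond (Nat.beq (nib F p.1) q.1) (Nat.beq (nib F p.2) q.2) false) ||
        (cond (Nat.beq (nib F p.1) q.2) (Nat.beq (nib F p.2) q.1) false)) false) false) L)
    false) false) L')
  (allL (fun q => cond (Nat.ble (Nat.succ q.1) m)
    (anyN (fun x => cond (Nat.beq (nib F x) q.1) (HH x q.2) false) n) false) H')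
  false) false

/-- The edges of the union of two rooted graphs. -/
def gL (b g : ℕ) (A B : RM) : List (ℕ × ℕ) :=
  A.L ++ (B.L.map (fun p => (Nat.add A.n p.1, Nat.add A.n p.2)) ++
    A.H.flatMap (fun p => (filL (fun q => cond (Nat.beq (nib g p.2) q.2)
      (Nat.ble (Nat.succ q.2) b) false) B.H).map (fun q => (p.1, Nat.add A.n q.1))))

/-- Does the vertex `x` of the union hold the end number `i`? -/
def gH (a : ℕ) (A B : RM) (c x i : ℕ) : Bool :=
  cond (Nat.ble a (nib c i))
    (anyL (fun q => cond (Nat.beq (Nat.add A.n q.1) x) (Nat.beq (Nat.add a q.2) (nib c i)) false)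
      B.H)
    (anyL (fun q => cond (Nat.beq q.1 x) (Nat.beq q.2 (nib c i)) false) A.H)

/-- The edges of the union of two rooted graphs and a vertex for all other vertices. -/
def gW (a b g : ℕ) (A B : RM) : List (ℕ × ℕ) :=
  gL b g A B ++
    ((filL (fun p => cond (Nat.ble (Nat.succ p.2) a) (Nat.beq (nib g p.2) b) false) A.H).map
      (fun p => (p.1, Nat.add A.n B.n)) ++
    (filL (fun q => cond (Nat.ble (Nat.succ q.2) b)
        (!(anyN (fun x => Nat.beq (nib g x) q.2) a)) false) B.H).map
      (fun q => (Nat.add A.n q.1, Nat.add A.n B.n)))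

/-- The empty rooted graph. -/
def rm0 : RM := ⟨0, [], []⟩

/-- Check of the rooted graph `τ` with the graphs `A`, `B` and the classes `F`. -/
def chkX (a b g c : ℕ) (A B τ : RM) (F : ℕ) : Bool :=
  chkM (Nat.add A.n B.n) (gL b g A B) (gH a A B c) F τ.n τ.L τ.H

/-- Check of the rooted graph `τ` with the witness `v`. -/
def chkV (a b g c : ℕ) (TA TB : List RM) (τ : RM) (v : ℕ) : Bool :=
  chkX a b g c (getL rm0 TA (Nat.land v 7)) (getL rm0 TB (Nat.land (Nat.shiftRight v 3) 7)) τ
    (Nat.shiftRight v 6)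

/-- Checks for all rooted graphs in a list. -/
def chkT (a b g c : ℕ) (TA TB : List RM) (Ts : List RM) : List ℕ → Bool :=
  List.rec (fun _ => true) (fun τ _ ih vs => List.rec false
    (fun v vs' _ => cond (chkV a b g c TA TB τ v) (ih vs') false) vs) Ts

/-- The union of two rooted graphs and the rest has a Petersen minor. -/
def chkY (a b k g : ℕ) (A B : RM) (F : ℕ) : Bool :=
  cond (Nat.ble 1 k || Nat.ble 10 (nib F (Nat.add A.n B.n)))
    (chkM (Nat.succ (Nat.add A.n B.n)) (gW a b g A B) (fun _ _ => false) F 10 petL []) false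

/-- The union of the pieces and the rest has a Petersen minor. -/
def chkW (a b k g : ℕ) (TA TB : List RM) (v : ℕ) : Bool :=
  chkY a b k g (getL rm0 TA (Nat.land v 7)) (getL rm0 TB (Nat.land (Nat.shiftRight v 3) 7))
    (Nat.shiftRight v 6)

/-- The order `h` of the `k` ends is a rearrangement of the order `f`. -/
def okO (k f h : ℕ) : Bool :=
  cond (allN (fun i => anyN (fun j => Nat.beq (nib f i) (nib h j)) k) k)
  (allN (fun i => anyN (fun j => Nat.beq (nib h i) (nib f j)) k) k) false

/-- Witness check for one gluing: `k` free ends `f`, gluing `g`. -/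
def chk2 (a b : ℕ) (M ml N nl : ℕ) (TA TB : List RM) (k f g h : ℕ) (us : List ℕ) : Bool :=
  cond (Nat.beq (Nat.land h 15) 15) (List.rec false (fun v _ _ => chkW a b k g TA TB v) us)
  (cond (Nat.ble (Nat.succ (Nat.land h 15)) (nb k))
  (cond (okO k f (Nat.shiftRight h 4))
  (chkL a b k g (Nat.shiftRight h 4) M ml N nl (tp k (Nat.land h 15))
    (chkT a b g (Nat.shiftRight h 4) TA TB (ty k (Nat.land h 15))) (tl k (Nat.land h 15)) 0 us)
  false) false)

/-- Witness check for one gluing with code `e`. -/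
def chk1 (a b : ℕ) (M ml N nl : ℕ) (TA TB : List RM) (e : ℕ) (w : List ℕ) : Bool :=
  List.rec false (fun h us _ => chk2 a b M ml N nl TA TB (Nat.land e 15)
    (Nat.land (Nat.shiftRight e 4) 1048575) (Nat.shiftRight e 24) h us) w

/-- Checks for a list of gluings. -/
def chkAll (f : ℕ → List ℕ → Bool) (es : List ℕ) : List (List ℕ) → Bool :=
  List.rec (fun _ => true) (fun e _ ih W => List.rec false
    (fun w W' _ => cond (f e w) (ih W') false) W) es

/-- The full check for two behaviours. -/
def chkP (a m b n : ℕ) (es : List ℕ) (W : List (List ℕ)) : Bool :=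
  chkAll (chk1 a b (tp a m) (tl a m) (tp b n) (tl b n) (ty a m) (ty b n)) es W

end Pool.Agent.TH412.PF
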