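import Mathlib
import Pool.Agent.TH412.PF.Tab

/-!
Definitions: cuts and boundary sums in a finite multigraph given by two end maps, colourings by three
colours, connected sets of vertices, rooted graphs in pieces, carvings; statements of the parts.
The framework (carvings, pieces, reduction of small cuts) follows `Pool.Agent.W420.BF`.
-/

set_option autoImplicit false

open Finset

namespace Pool.Agent.TH412.PF

open Classical in
/-- The edges with exactly one end in `Z`. -/
noncomputable def cut {V E : Type} [Fintype E] (s t : E → V) (Z : Set V) : Finset E :=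
  univ.filter (fun e => ¬ (s e ∈ Z ↔ t e ∈ Z))

open Classical in
/-- The sum modulo 2 of `x` over the edges at `v`, a loop counted twice. -/
noncomputable def bd {V E : Type} [Fintype E] (s t : E → V) (x : E → ZMod 2) (v : V) : ZMod 2 :=
  ∑ e, x e * ((if s e = v then 1 else 0) + (if t e = v then 1 else 0))

/-- The indicator function of the edges whose colour is not `i`. -/
def xi {E : Type} (f : E → ℕ) (i : ℕ) (e : E) : ZMod 2 := if mem3 (f e) i = true then 1 else 0

/-- `f` is a colouring by `0, 1, 2` that satisfies the parity condition at the vertices in `X`. -/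
def Good {V E : Type} [Fintype E] (s t : E → V) (f : E → ℕ) (X : Set V) : Prop :=
  (∀ e, f e < 3) ∧ ∀ v ∈ X, ∀ i < 3, bd s t (xi f i) v = 0

/-- The ends of the piece `X` are numbered by `o`. -/
def Ord {V E : Type} [Fintype E] (s t : E → V) (X : Set V) (k : ℕ) (o : ℕ → E) : Prop :=
  (∀ i < k, ∀ j < k, o i = o j → i = j) ∧ ∀ e, e ∈ cut s t X ↔ ∃ i < k, o i = e

/-- The piece `X` has the state `S`. -/
def HasSt {V E : Type} [Fintype E] (s t : E → V) (X : Set V) (k : ℕ) (o : ℕ → E) (S : ℕ) : Prop :=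
  ∃ f : E → ℕ, Good s t f X ∧ ∀ i < k, f (o i) = nib S i

/-- Some edge joins `A` and `B`. -/
def Lk {V E : Type} (s t : E → V) (A B : Set V) : Prop :=
  ∃ e, (s e ∈ A ∧ t e ∈ B) ∨ (t e ∈ A ∧ s e ∈ B)

/-- The set `B` is connected: it is not empty, and some edge joins each nonempty proper subset of `B`
to the rest of `B`. -/
def Conn {V E : Type} (s t : E → V) (B : Set V) : Prop :=
  B.Nonempty ∧ ∀ Z ⊆ B, Z.Nonempty → Z ≠ B → Lk s t Z (B \ Z)

/-- The rooted graph `τ` is a minor of the piece `X` with ends numbered by `o`. -/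
def Mod {V E : Type} (s t : E → V) (X : Set V) (o : ℕ → E) (τ : RM) : Prop :=
  ∃ B : ℕ → Set V, (∀ i < τ.n, B i ⊆ X ∧ Conn s t (B i)) ∧
    (∀ i < τ.n, ∀ j < τ.n, i ≠ j → Disjoint (B i) (B j)) ∧
    (∀ p ∈ τ.L, p.1 < τ.n ∧ p.2 < τ.n ∧ Lk s t (B p.1) (B p.2)) ∧
    ∀ p ∈ τ.H, p.1 < τ.n ∧ (s (o p.2) ∈ B p.1 ∨ t (o p.2) ∈ B p.1)

/-- The piece `X` with `k` ends has one of the behaviours. -/
def HasC {V E : Type} [Fintype E] (s t : E → V) (X : Set V) (k : ℕ) : Prop :=
  ∃ o : ℕ → E, Ord s t X k o ∧ ∃ m < nb k, (∀ i < tl k m, HasSt s t X k o (stt (tp k m) i)) ∧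
    ∀ τ ∈ ty k m, Mod s t X o τ

/-- The graph has a Petersen minor: ten disjoint connected sets of vertices joined as the vertices
of the Petersen graph. -/
def HasPet {V E : Type} (s t : E → V) : Prop :=
  ∃ B : ℕ → Set V, (∀ i < 10, Conn s t (B i)) ∧
    (∀ i < 10, ∀ j < 10, i ≠ j → Disjoint (B i) (B j)) ∧
    ∀ p ∈ petL, Lk s t (B p.1) (B p.2)

/-- Binary trees with leaves labelled by `V`. -/
inductive Tr (V : Type) : Type
  | leaf (v : V) : Tr V
  | node (l r : Tr V) : Tr V

/-- The labels of the leaves. -/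
def Tr.set {V : Type} : Tr V → Set V
  | .leaf v => {v}
  | .node l r => l.set ∪ r.set

/-- The number of leaves. -/
def Tr.size {V : Type} : Tr V → ℕ
  | .leaf _ => 1
  | .node l r => l.size + r.size

/-- The labels of different leaves are different. -/
def Tr.Nodup {V : Type} : Tr V → Prop
  | .leaf _ => True
  | .node l r => Disjoint l.set r.set ∧ l.Nodup ∧ r.Nodup

/-- For each subtree at most `w` edges leave the set of its leaves. -/
def Tr.Width {V E : Type} [Fintype E] (s t : E → V) (w : ℕ) : Tr V → Prop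
  | .leaf v => (cut s t {v}).card ≤ w
  | .node l r => (cut s t (l.set ∪ r.set)).card ≤ w ∧ l.Width s t w ∧ r.Width s t w

/-- Part PERM: transitivity. -/
def StmTrans : Prop := ∀ c < 3, ∀ d < 3, ∃ p < 6, nib (pt p) c = d

/-- Part PERM: applying a permutation to a good colouring. -/
def StmAct : Prop := ∀ (V E : Type) [Fintype E] (s t : E → V) (X : Set V) (f : E → ℕ) (p : ℕ),
  p < 6 → Good s t f X → Good s t (fun e => nib (pt p) (f e)) X

/-- Part LEAF: single vertices. -/
def StmLeaf : Prop := ∀ (V E : Type) [Fintype E] (s t : E → V) (v : V),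
  3 ≤ (cut s t {v}).card → (cut s t {v}).card ≤ 5 → HasC s t {v} (cut s t {v}).card

/-- Part JOIN: the union of two pieces. The graph has no Petersen minor; the set `R` of the other
vertices is connected if some edges leave the union. -/
def StmJoin : Prop := ∀ (V E : Type) [Fintype E] (s t : E → V) (X Y R : Set V) (a b : ℕ),
  Disjoint X Y → Disjoint (X ∪ Y) R → (∀ e, s e ∈ X ∪ Y ∪ R ∧ t e ∈ X ∪ Y ∪ R) →
  ((cut s t (X ∪ Y)).card ≠ 0 → Conn s t R) → ¬ HasPet s t →
  HasC s t X a → HasC s t Y b → 3 ≤ a → a ≤ 5 → 3 ≤ b → b ≤ 5 →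
  ((cut s t (X ∪ Y)).card = 0 ∨ 3 ≤ (cut s t (X ∪ Y)).card ∧ (cut s t (X ∪ Y)).card ≤ 5) →
  HasC s t (X ∪ Y) (cut s t (X ∪ Y)).card

/-- Part THREE: graphs without cuts of size less than three. -/
def StmThree : Prop := ∀ (V E : Type) [Fintype E] (s t : E → V) (T : Tr V),
  T.Nodup → T.Width s t 5 → (∀ e, s e ∈ T.set ∧ t e ∈ T.set) → ¬ HasPet s t →
  (∀ Z : Set V, (∃ v ∈ T.set, v ∈ Z) → (∃ v ∈ T.set, v ∉ Z) → 3 ≤ (cut s t Z).card) →
  ∃ f : E → ℕ, Good s t f T.set

/-- Part RED: reduction of the cuts of size zero and two. -/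
def StmRed : Prop := StmAct → StmTrans → StmThree →
  ∀ (V E : Type) [Fintype E] (s t : E → V) (T : Tr V),
  T.Nodup → T.Width s t 5 → (∀ e, s e ∈ T.set ∧ t e ∈ T.set) → ¬ HasPet s t →
  (∀ Z : Set V, (cut s t Z).card ≠ 1) → ∃ f : E → ℕ, Good s t f T.set

end Pool.Agent.TH412.PF
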