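import Pool.Agent.TH412.PF.Sound

/-!
Rooted graphs in the union of two pieces.
-/

set_option autoImplicit false

open Finset

namespace Pool.Agent.TH412.PF

variable {V E : Type} [Fintype E]

set_option linter.unusedSectionVars false

theorem mem_cut (s t : E → V) (Z : Set V) (e : E) :
    e ∈ cut s t Z ↔ ¬ (s e ∈ Z ↔ t e ∈ Z) := by
  classical
  unfold cut
  simp only [mem_filter, mem_univ, true_and]

theorem mem_cut_union (s t : E → V) (X Y : Set V) (hd : Disjoint X Y) (e : E) :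
    e ∈ cut s t (X ∪ Y) ↔ (e ∈ cut s t X ∧ e ∉ cut s t Y) ∨ (e ∈ cut s t Y ∧ e ∉ cut s t X) := by
  have h : ∀ v, v ∈ X → v ∉ Y := fun v hv => Set.disjoint_left.mp hd hv
  have h1 := h (s e)
  have h2 := h (t e)
  simp only [mem_cut, Set.mem_union]
  tauto

/-- The common part of the two constructions. -/
theorem glue_links {s t : E → V} {X Y : Set V} (hd : Disjoint X Y) {a b g : ℕ} {oX oY : ℕ → E}
    (hg : ∀ x < a, nib g x < b → oY (nib g x) = oX x) {A B : RM} {BA BB : ℕ → Set V}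
    (hA1 : ∀ i < A.n, BA i ⊆ X ∧ Conn s t (BA i)) (hB1 : ∀ i < B.n, BB i ⊆ Y ∧ Conn s t (BB i))
    (hA3 : ∀ p ∈ A.L, p.1 < A.n ∧ p.2 < A.n ∧ Lk s t (BA p.1) (BA p.2))
    (hB3 : ∀ p ∈ B.L, p.1 < B.n ∧ p.2 < B.n ∧ Lk s t (BB p.1) (BB p.2))
    (hA4 : ∀ p ∈ A.H, p.1 < A.n ∧ (s (oX p.2) ∈ BA p.1 ∨ t (oX p.2) ∈ BA p.1))
    (hB4 : ∀ p ∈ B.H, p.1 < B.n ∧ (s (oY p.2) ∈ BB p.1 ∨ t (oY p.2) ∈ BB p.1))
    (hAl : ∀ p ∈ A.H, p.2 < a) (C : ℕ → Set V) (hC1 : ∀ i < A.n, C i = BA i)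
    (hC2 : ∀ i < B.n, C (A.n + i) = BB i) :
    ∀ p ∈ gL b g A B, Lk s t (C p.1) (C p.2) := by
  intro p hp
  unfold gL at hp
  rcases List.mem_append.1 hp with hp | hp
  · obtain ⟨h1, h2, h3⟩ := hA3 p hp
    rw [hC1 _ h1, hC1 _ h2]
    exact h3
  · rcases List.mem_append.1 hp with hp | hp
    · rw [List.mem_map] at hp
      obtain ⟨q, hq, rfl⟩ := hp
      obtain ⟨h1, h2, h3⟩ := hB3 q hq
      show Lk s t (C (A.n + q.1)) (C (A.n + q.2))
      rw [hC2 _ h1, hC2 _ h2]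
      exact h3
    · rw [List.mem_flatMap] at hp
      obtain ⟨q, hq, hp⟩ := hp
      rw [List.mem_map] at hp
      obtain ⟨r, hr, rfl⟩ := hp
      rw [mem_filL, cond_true_iff, Nat.beq_eq, Nat.ble_eq] at hr
      obtain ⟨hr, h1, h2⟩ := hr
      obtain ⟨h3, h4⟩ := hA4 q hq
      obtain ⟨h5, h6⟩ := hB4 r hr
      have h7 := hAl q hq
      have h8 := hg q.2 h7 (by omega)
      show Lk s t (C q.1) (C (A.n + r.1))
      rw [hC1 _ h3, hC2 _ h5]
      rw [h1] at h8
      rw [h8] at h6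
      refine ⟨oX q.2, ?_⟩
      have hdX := (hA1 _ h3).1
      have hdY := (hB1 _ h5).1
      rcases h4 with h4 | h4 <;> rcases h6 with h6 | h6
      · exact absurd (hdY h6) (Set.disjoint_left.1 hd (hdX h4))
      · exact Or.inl ⟨h4, h6⟩
      · exact Or.inr ⟨h4, h6⟩
      · exact absurd (hdY h6) (Set.disjoint_left.1 hd (hdX h4))

theorem mod_rm0 (s t : E → V) (X : Set V) (o : ℕ → E) : Mod s t X o rm0 :=
  ⟨fun _ => ∅, fun i hi => absurd hi (Nat.not_lt_zero i), fun i hi => absurd hi (Nat.not_lt_zero i),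
    fun p hp => by simp [rm0] at hp, fun p hp => by simp [rm0] at hp⟩

/-- A rooted graph in the union. -/
theorem glue_mod {s t : E → V} {X Y : Set V} (hd : Disjoint X Y) {a b g c : ℕ} {oX oY : ℕ → E}
    (hg : ∀ x < a, nib g x < b → oY (nib g x) = oX x) {A B τ : RM} {F : ℕ}
    (hA : Mod s t X oX A) (hB : Mod s t Y oY B) (hAl : ∀ p ∈ A.H, p.2 < a)
    (h : chkX a b g c A B τ F = true) (o : ℕ → E)
    (ho : ∀ i, o i = if nib c i < a then oX (nib c i) else oY (nib c i - a)) :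
    Mod s t (X ∪ Y) o τ := by
  obtain ⟨BA, hA1, hA2, hA3, hA4⟩ := hA
  obtain ⟨BB, hB1, hB2, hB3, hB4⟩ := hB
  obtain ⟨C, hC⟩ : ∃ C : ℕ → Set V, C = fun x => if x < A.n then BA x else BB (x - A.n) := ⟨_, rfl⟩
  have hC1 : ∀ i < A.n, C i = BA i := by
    intro i hi
    rw [hC]
    simp only [if_pos hi]
  have hC2 : ∀ i < B.n, C (A.n + i) = BB i := by
    intro i hi
    rw [hC]
    simp only [if_neg (by omega : ¬ A.n + i < A.n), Nat.add_sub_cancel_left]
  have hcase : ∀ x < A.n + B.n, x < A.n ∨ ∃ y < B.n, x = A.n + y := by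
    intro x hx
    by_cases h1 : x < A.n
    · exact Or.inl h1
    · exact Or.inr ⟨x - A.n, by omega, by omega⟩
  have hsub : ∀ x < A.n + B.n, C x ⊆ X ∪ Y ∧ Conn s t (C x) := by
    intro x hx
    rcases hcase x hx with h1 | ⟨y, hy, rfl⟩
    · rw [hC1 x h1]
      exact ⟨(hA1 x h1).1.trans Set.subset_union_left, (hA1 x h1).2⟩
    · rw [hC2 y hy]
      exact ⟨(hB1 y hy).1.trans Set.subset_union_right, (hB1 y hy).2⟩
  obtain ⟨B', k1, k2, k3, k4, k5⟩ := chkM_sound (s := s) (t := t) (B := C)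
    (fun p hp _ _ => glue_links hd hg hA1 hB1 hA3 hB3 hA4 hB4 hAl C hC1 hC2 p hp)
    (fun x hx _ => (hsub x hx).2) (by
      intro x hx y hy hxy
      rcases hcase x hx with h1 | ⟨x', hx', rfl⟩
      · rcases hcase y hy with h2 | ⟨y', hy', rfl⟩
        · rw [hC1 x h1, hC1 y h2]
          exact hA2 x h1 y h2 hxy
        · rw [hC1 x h1, hC2 y' hy']
          exact hd.mono (hA1 x h1).1 (hB1 y' hy').1
      · rcases hcase y hy with h2 | ⟨y', hy', rfl⟩
        · rw [hC2 x' hx', hC1 y h2]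
          exact hd.symm.mono (hB1 x' hx').1 (hA1 y h2).1
        · rw [hC2 x' hx', hC2 y' hy']
          exact hB2 x' hx' y' hy' (by omega)) h
  refine ⟨B', fun u hu => ⟨?_, k2 u hu⟩, k3, k4, ?_⟩
  · intro v hv
    rw [k1 u hu] at hv
    obtain ⟨x, hx, _, hv⟩ := hv
    exact (hsub x hx).1 hv
  · intro q hq
    obtain ⟨h1, x, hx, h2, h3⟩ := k5 q hq
    refine ⟨h1, ?_⟩
    have hin : ∀ v, v ∈ C x → v ∈ B' q.1 := fun v hv => (k1 _ h1 v).2 ⟨x, hx, h2, hv⟩
    unfold gH at h3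
    by_cases hlt : nib c q.2 < a
    · have hb : Nat.ble a (nib c q.2) = false := by
        rw [← Bool.not_eq_true, Nat.ble_eq]; omega
      rw [hb, cond_false, anyL_iff] at h3
      obtain ⟨r, hr, h4⟩ := h3
      rw [cond_true_iff, Nat.beq_eq, Nat.beq_eq] at h4
      obtain ⟨h5, h6⟩ := hA4 r hr
      rw [ho q.2, if_pos hlt, ← h4.2]
      have : C x = BA r.1 := by rw [← h4.1]; exact hC1 _ h5
      rw [this] at hin
      exact h6.imp (hin _) (hin _)
    · have hb : Nat.ble a (nib c q.2) = true := by rw [Nat.ble_eq]; omega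
      rw [hb, cond_true, anyL_iff] at h3
      obtain ⟨r, hr, h4⟩ := h3
      rw [cond_true_iff, Nat.beq_eq, Nat.beq_eq] at h4
      obtain ⟨h5, h6⟩ := hB4 r hr
      have h7 : a + r.2 = nib c q.2 := h4.2
      rw [ho q.2, if_neg hlt, ← h7, Nat.add_sub_cancel_left]
      have : C x = BB r.1 := by
        rw [← h4.1]
        exact hC2 _ h5
      rw [this] at hin
      exact h6.imp (hin _) (hin _)

/-- A Petersen minor in the whole graph. -/
theorem glue_pet {s t : E → V} {X Y R : Set V} (hd : Disjoint X Y) (hR : Disjoint (X ∪ Y) R)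
    (hE : ∀ e, s e ∈ X ∪ Y ∪ R ∧ t e ∈ X ∪ Y ∪ R) {a b g k : ℕ} {oX oY : ℕ → E}
    (hX : Ord s t X a oX) (hY : Ord s t Y b oY)
    (hg : ∀ x < a, nib g x < b → oY (nib g x) = oX x)
    (hg1 : ∀ x < a, nib g x = b → oX x ∉ cut s t Y)
    (hg2 : ∀ y < b, (∀ x < a, nib g x ≠ y) → oY y ∉ cut s t X)
    (hk : k ≠ 0 → Conn s t R)
    {A B : RM} {F : ℕ} (hA : Mod s t X oX A) (hB : Mod s t Y oY B) (hAl : ∀ p ∈ A.H, p.2 < a)
    (h : chkY a b k g A B F = true) : HasPet s t := by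
  obtain ⟨BA, hA1, hA2, hA3, hA4⟩ := hA
  obtain ⟨BB, hB1, hB2, hB3, hB4⟩ := hB
  obtain ⟨C, hC⟩ : ∃ C : ℕ → Set V, C = fun x => if x < A.n then BA x else
    if x < A.n + B.n then BB (x - A.n) else R := ⟨_, rfl⟩
  have hC1 : ∀ i < A.n, C i = BA i := by
    intro i hi
    rw [hC]
    simp only [if_pos hi]
  have hC2 : ∀ i < B.n, C (A.n + i) = BB i := by
    intro i hi
    rw [hC]
    simp only [if_neg (by omega : ¬ A.n + i < A.n), if_pos (by omega : A.n + i < A.n + B.n),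
      Nat.add_sub_cancel_left]
  have hC3 : C (A.n + B.n) = R := by
    rw [hC]
    simp only [if_neg (by omega : ¬ A.n + B.n < A.n), if_neg (by omega : ¬ A.n + B.n < A.n + B.n)]
  have hcase : ∀ x < A.n + B.n + 1, x < A.n ∨ (∃ y < B.n, x = A.n + y) ∨ x = A.n + B.n := by
    intro x hx
    by_cases h1 : x < A.n
    · exact Or.inl h1
    · by_cases h2 : x < A.n + B.n
      · exact Or.inr (Or.inl ⟨x - A.n, by omega, by omega⟩)
      · exact Or.inr (Or.inr (by omega))
  unfold chkY at h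
  rw [cond_true_iff] at h
  obtain ⟨hk1, h⟩ := h
  rw [Bool.or_eq_true, Nat.ble_eq, Nat.ble_eq] at hk1
  have hfar : ∀ (Z W : Set V) (e : E), Disjoint Z W → e ∈ cut s t Z → e ∉ cut s t W →
      X ∪ Y = Z ∪ W → ∀ P : Set V, P ⊆ Z → (s e ∈ P ∨ t e ∈ P) → Lk s t P R := by
    intro Z W e hZW h1 h2 h3 P hP h4
    rw [mem_cut] at h1 h2
    have hs := (hE e).1
    have ht := (hE e).2
    rw [h3] at hs ht
    have hdis : ∀ v, v ∈ Z → v ∉ W := fun v hv => Set.disjoint_left.1 hZW hv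
    refine ⟨e, ?_⟩
    rcases h4 with h4 | h4
    · left
      refine ⟨h4, ?_⟩
      have hsZ := hP h4
      have hsW := hdis _ hsZ
      have htZ : t e ∉ Z := fun h => h1 ⟨fun _ => h, fun _ => hsZ⟩
      have htW : t e ∉ W := fun h => h2 (fun h' => hsW (h'.2 h))
      rcases ht with (ht | ht) | ht
      · exact absurd ht htZ
      · exact absurd ht htW
      · exact ht
    · right
      refine ⟨h4, ?_⟩
      have htZ := hP h4
      have htW := hdis _ htZ
      have hsZ : s e ∉ Z := fun h => h1 ⟨fun _ => htZ, fun _ => h⟩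
      rcases hs with (hs | hs) | hs
      · exact absurd hs hsZ
      · exact absurd (fun h' : s e ∈ W ↔ t e ∈ W => htW (h'.1 hs)) h2
      · exact hs
  have hlinks : ∀ p ∈ gW a b g A B, Lk s t (C p.1) (C p.2) := by
    intro p hp
    unfold gW at hp
    rcases List.mem_append.1 hp with hp | hp
    · exact glue_links hd hg hA1 hB1 hA3 hB3 hA4 hB4 hAl C hC1 hC2 p hp
    · rcases List.mem_append.1 hp with hp | hp
      · rw [List.mem_map] at hp
        obtain ⟨q, hq, rfl⟩ := hp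
        rw [mem_filL, cond_true_iff, Nat.beq_eq, Nat.ble_eq] at hq
        obtain ⟨hq, h1, h2⟩ := hq
        obtain ⟨h3, h4⟩ := hA4 q hq
        show Lk s t (C q.1) (C (A.n + B.n))
        rw [hC1 _ h3, hC3]
        exact hfar X Y (oX q.2) hd ((hX.2 _).2 ⟨q.2, h1, rfl⟩) (hg1 q.2 h1 h2) rfl _ (hA1 _ h3).1 h4
      · rw [List.mem_map] at hp
        obtain ⟨q, hq, rfl⟩ := hp
        rw [mem_filL, cond_true_iff, Nat.ble_eq, Bool.not_eq_true', ← Bool.not_eq_true, anyN_iff]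
          at hq
        obtain ⟨hq, h1, h2⟩ := hq
        obtain ⟨h3, h4⟩ := hB4 q hq
        show Lk s t (C (A.n + q.1)) (C (A.n + B.n))
        rw [hC2 _ h3, hC3]
        refine hfar Y X (oY q.2) hd.symm ((hY.2 _).2 ⟨q.2, h1, rfl⟩) (hg2 q.2 h1 ?_)
          (Set.union_comm X Y) _ (hB1 _ h3).1 h4
        intro x hx hxq
        exact h2 ⟨x, hx, by rw [Nat.beq_eq]; exact hxq⟩
  obtain ⟨B', k1, k2, k3, k4, k5⟩ := chkM_sound (s := s) (t := t) (B := C)
    (fun p hp _ _ => hlinks p hp)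
    (by
      intro x hx hF
      rcases hcase x hx with h1 | ⟨y, hy, rfl⟩ | rfl
      · rw [hC1 x h1]
        exact (hA1 x h1).2
      · rw [hC2 y hy]
        exact (hB1 y hy).2
      · rw [hC3]
        apply hk
        intro h0
        rw [h0] at hk1
        rcases hk1 with h1 | h1
        · omega
        · have h2 : 10 ≤ nib F (A.n + B.n) := h1
          omega) (by
      intro x hx y hy hxy
      have hsubX : ∀ i < A.n, C i ⊆ X := fun i hi => by rw [hC1 i hi]; exact (hA1 i hi).1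
      have hsubY : ∀ i < B.n, C (A.n + i) ⊆ Y := fun i hi => by rw [hC2 i hi]; exact (hB1 i hi).1
      rcases hcase x hx with h1 | ⟨x', hx', rfl⟩ | rfl
      · rcases hcase y hy with h2 | ⟨y', hy', rfl⟩ | rfl
        · rw [hC1 x h1, hC1 y h2]
          exact hA2 x h1 y h2 hxy
        · exact hd.mono (hsubX x h1) (hsubY y' hy')
        · rw [hC3]
          exact hR.mono ((hsubX x h1).trans Set.subset_union_left) (Set.Subset.refl _)
      · rcases hcase y hy with h2 | ⟨y', hy', rfl⟩ | rfl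
        · exact hd.symm.mono (hsubY x' hx') (hsubX y h2)
        · rw [hC2 x' hx', hC2 y' hy']
          exact hB2 x' hx' y' hy' (by omega)
        · rw [hC3]
          exact hR.mono ((hsubY x' hx').trans Set.subset_union_right) (Set.Subset.refl _)
      · rcases hcase y hy with h2 | ⟨y', hy', rfl⟩ | rfl
        · rw [hC3]
          exact (hR.mono ((hsubX y h2).trans Set.subset_union_left) (Set.Subset.refl _)).symm
        · rw [hC3]
          exact (hR.mono ((hsubY y' hy').trans Set.subset_union_right) (Set.Subset.refl _)).symm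
        · exact absurd rfl hxy) h
  exact ⟨B', k2, k3, fun p hp => (k4 p hp).2.2⟩

end Pool.Agent.TH412.PF
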