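import Pool.Agent.TH412.PF.Comb

/-!
Soundness of the table checker.
-/

set_option autoImplicit false

open Finset

namespace Pool.Agent.TH412.PF

theorem chkAll_sound (f : ℕ → List ℕ → Bool) : ∀ (es : List ℕ) (W : List (List ℕ)),
    chkAll f es W = true → ∀ e ∈ es, ∃ w, f e w = true := by
  intro es
  induction es with
  | nil => intro W _ e he; simp at he
  | cons e es ih =>
    intro W h x hx
    cases W with
    | nil => exact absurd h (by simp [chkAll])
    | cons w W =>
      have h' : cond (f e w) (chkAll f es W) false = true := h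
      rw [cond_true_iff] at h'
      rcases List.mem_cons.1 hx with rfl | hx
      · exact ⟨w, h'.1⟩
      · exact ih W h'.2 x hx

theorem chkG_sound (a b : ℕ) : ∀ (Gs : List (List ℕ)) (es : List ℕ), chkG a b Gs es = true →
    ∀ G ∈ Gs, rel (fr a b G).length = true → ∃ e ∈ es, okG a b G e = true := by
  intro Gs
  induction Gs with
  | nil => intro es _ G hG; simp at hG
  | cons H Hs ih =>
    intro es h G hG hr
    unfold chkG at h
    cases hq : rel (fr a b H).length
    · rw [hq, cond_false] at h
      rcases List.mem_cons.1 hG with rfl | hG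
      · rw [hr] at hq; exact absurd hq (by simp)
      · exact ih es h G hG hr
    · rw [hq, cond_true] at h
      cases es with
      | nil => exact absurd h (by simp)
      | cons e es =>
        simp only [Bool.and_eq_true] at h
        rcases List.mem_cons.1 hG with rfl | hG
        · exact ⟨e, List.mem_cons_self, h.1⟩
        · obtain ⟨x, hx, h2⟩ := ih es h.2 G hG hr
          exact ⟨x, List.mem_cons_of_mem _ hx, h2⟩

theorem okG_sound (a b : ℕ) (G : List ℕ) (e : ℕ) (h : okG a b G e = true) :
    Nat.land e 15 = (fr a b G).length ∧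
    (∀ i < (fr a b G).length, nib (Nat.shiftRight e 4) i = (fr a b G).getD i 0) ∧
    ∀ x < a, nib (Nat.shiftRight e 24) x = G.getD x b := by
  unfold okG at h
  simp only [Bool.and_eq_true, List.all_eq_true, List.mem_range, Nat.beq_eq] at h
  exact ⟨h.1.1, h.1.2, h.2⟩

theorem nib_land (X i : ℕ) (hi : i < 5) : nib (Nat.land X 1048575) i = nib X i := by
  have h1 : ∀ Y, nib Y i = (Y >>> (4 * i)) &&& 15 := fun Y => rfl
  have h2 : Nat.land X 1048575 = X &&& 1048575 := rfl
  rw [h1, h1, h2, Nat.shiftRight_and_distrib, Nat.and_assoc]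
  congr 1
  interval_cases i <;> decide

theorem mem_pats (b : ℕ) : ∀ (n : ℕ) (l : List ℕ), l.length = n → (∀ y ∈ l, y ≤ b) →
    l.Pairwise (fun y z => y = z → y = b) → l ∈ pats b n := by
  intro n
  induction n with
  | zero =>
    intro l hl _ _
    rw [List.length_eq_zero_iff] at hl
    subst hl
    simp [pats]
  | succ n ih =>
    intro l hl hb hp
    cases l with
    | nil => simp at hl
    | cons y l =>
      rw [pats, List.mem_flatMap]
      refine ⟨l, ih l (by simpa using hl) (fun z hz => hb z (List.mem_cons_of_mem _ hz))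
        (List.pairwise_cons.mp hp).2, ?_⟩
      rw [List.mem_map]
      refine ⟨y, ?_, rfl⟩
      rw [List.mem_filter, List.mem_range]
      refine ⟨Nat.lt_succ_of_le (hb y List.mem_cons_self), ?_⟩
      by_cases hyb : y = b
      · simp [hyb]
      · have : y ∉ l := by
          intro hy
          exact hyb ((List.pairwise_cons.mp hp).1 y hy rfl)
        have h2 : anyL (fun z => Nat.beq z y) l = false := by
          rw [← Bool.not_eq_true, anyL_iff]
          rintro ⟨z, hz, h⟩
          rw [Nat.beq_eq] at h
          exact this (h ▸ hz)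
        simp [h2]

theorem mem_fr (a b : ℕ) (G : List ℕ) (z : ℕ) : z ∈ fr a b G ↔
    (z < a ∧ G.getD z b = b) ∨ ∃ y < b, y ∉ G ∧ z = a + y := by
  have h0 : ∀ y, (!(anyL (fun z => Nat.beq z y) G)) = true ↔ y ∉ G := by
    intro y
    rw [Bool.not_eq_true', ← Bool.not_eq_true, anyL_iff]
    simp only [Nat.beq_eq]
    constructor
    · intro h hy
      exact h ⟨y, hy, rfl⟩
    · rintro h ⟨z, hz, rfl⟩
      exact h hz
  unfold fr
  simp only [List.mem_append, List.mem_filter, List.mem_range, List.mem_map, Nat.beq_eq, h0]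
  constructor
  · rintro (h | ⟨y, ⟨h1, h2⟩, h3⟩)
    · exact Or.inl h
    · exact Or.inr ⟨y, h1, h2, h3.symm⟩
  · rintro (h | ⟨y, h1, h2, h3⟩)
    · exact Or.inl h
    · exact Or.inr ⟨y, ⟨h1, h2⟩, h3.symm⟩

theorem nodup_fr (a b : ℕ) (G : List ℕ) : (fr a b G).Nodup := by
  unfold fr
  rw [List.nodup_append]
  refine ⟨List.nodup_range.filter _, (List.nodup_range.filter _).map (fun x y h => by
    simpa using h), ?_⟩
  intro x hx y hy
  simp only [List.mem_filter, List.mem_range, List.mem_map] at hx hy
  obtain ⟨z, _, rfl⟩ := hy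
  omega

theorem chkL_sound (a b k g c M ml N nl T : ℕ) (K : List ℕ → Bool) : ∀ (n i : ℕ) (us : List ℕ),
    chkL a b k g c M ml N nl T K n i us = true →
    (∀ j < n, ∃ u, chkU a b k g c M ml N nl (stt T (i + j)) u = true) ∧ ∃ us', K us' = true := by
  intro n
  induction n with
  | zero =>
    intro i us h
    exact ⟨fun j hj => absurd hj (Nat.not_lt_zero j), us, h⟩
  | succ n ih =>
    intro i us h
    cases us with
    | nil => exact absurd h (by simp [chkL])
    | cons u us =>
      have h' : cond (chkU a b k g c M ml N nl (stt T i) u)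
        (chkL a b k g c M ml N nl T K n (Nat.succ i) us) false = true := h
      rw [cond_true_iff] at h'
      obtain ⟨h1, h2⟩ := ih (Nat.succ i) us h'.2
      refine ⟨?_, h2⟩
      intro j hj
      cases j with
      | zero => exact ⟨u, h'.1⟩
      | succ j =>
        obtain ⟨v, hv⟩ := h1 j (by omega)
        exact ⟨v, by rw [show i + (j + 1) = Nat.succ i + j by omega]; exact hv⟩

theorem chkT_sound (a b g c : ℕ) (TA TB : List RM) : ∀ (Ts : List RM) (vs : List ℕ),
    chkT a b g c TA TB Ts vs = true → ∀ τ ∈ Ts, ∃ v, chkV a b g c TA TB τ v = true := by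
  intro Ts
  induction Ts with
  | nil => intro vs _ τ hτ; simp at hτ
  | cons τ Ts ih =>
    intro vs h σ hσ
    cases vs with
    | nil => exact absurd h (by simp [chkT])
    | cons v vs =>
      have h' : cond (chkV a b g c TA TB τ v) (chkT a b g c TA TB Ts vs) false = true := h
      rw [cond_true_iff] at h'
      rcases List.mem_cons.1 hσ with rfl | hσ
      · exact ⟨v, h'.1⟩
      · exact ih vs h'.2 σ hσ

theorem chkU_sound (a b k g c M ml N nl Z u : ℕ)
    (h : chkU a b k g c M ml N nl Z u = true) : ∃ i1 < ml, ∃ p < 6, ∃ i2 < nl, ∃ q < 6,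
    (∀ x < a, nib g x ≠ b →
      nib (pt p) (nib (stt M i1) x) = nib (pt q) (nib (stt N i2) (nib g x))) ∧
    ∀ i < k, (nib c i < a → nib (pt p) (nib (stt M i1) (nib c i)) = nib Z i) ∧
      (a ≤ nib c i → nib (pt q) (nib (stt N i2) (nib c i - a)) = nib Z i) := by
  unfold chkU at h
  simp only [cond_true_iff, Nat.ble_eq] at h
  obtain ⟨h1, h2, h3, h4, h5, h6⟩ := h
  refine ⟨_, h1, _, h2, _, h3, _, h4, ?_, ?_⟩
  · intro x hx hG
    unfold gl at h5
    rw [allN_iff] at h5
    have := h5 x hx
    cases hb : Nat.beq (nib g x) b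
    · rw [hb, cond_false, Nat.beq_eq] at this
      exact this
    · rw [Nat.beq_eq] at hb
      exact absurd hb hG
  · intro i hi
    unfold tg at h6
    rw [allN_iff] at h6
    have := h6 i hi
    constructor
    · intro hlt
      have hb : Nat.ble a (nib c i) = false := by
        rw [← Bool.not_eq_true, Nat.ble_eq]; omega
      rw [hb, cond_false, Nat.beq_eq] at this
      exact this
    · intro hle
      have hb : Nat.ble a (nib c i) = true := by rw [Nat.ble_eq]; exact hle
      rw [hb, cond_true, Nat.beq_eq] at this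
      exact this

theorem okO_sound (k f h : ℕ) (ho : okO k f h = true) :
    (∀ i < k, ∃ j < k, nib f i = nib h j) ∧ ∀ i < k, ∃ j < k, nib h i = nib f j := by
  unfold okO at ho
  rw [cond_true_iff, allN_iff, allN_iff] at ho
  constructor
  · intro i hi
    have := ho.1 i hi
    rw [anyN_iff] at this
    obtain ⟨j, hj, h2⟩ := this
    rw [Nat.beq_eq] at h2
    exact ⟨j, hj, h2⟩
  · intro i hi
    have := ho.2 i hi
    rw [anyN_iff] at this
    obtain ⟨j, hj, h2⟩ := this
    rw [Nat.beq_eq] at h2
    exact ⟨j, hj, h2⟩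

/-- What a successful check of one gluing gives. -/
theorem chk1_sound (a b M ml N nl : ℕ) (TA TB : List RM) (e : ℕ) (w : List ℕ)
    (h : chk1 a b M ml N nl TA TB e w = true) :
    (∃ v, chkW a b (Nat.land e 15) (Nat.shiftRight e 24) TA TB v = true) ∨
    ∃ r < nb (Nat.land e 15), ∃ c,
      okO (Nat.land e 15) (Nat.land (Nat.shiftRight e 4) 1048575) c = true ∧
      (∀ j < tl (Nat.land e 15) r, ∃ u, chkU a b (Nat.land e 15) (Nat.shiftRight e 24) c M ml N nl
        (stt (tp (Nat.land e 15) r) j) u = true) ∧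
      ∀ τ ∈ ty (Nat.land e 15) r, ∃ v, chkV a b (Nat.shiftRight e 24) c TA TB τ v = true := by
  cases w with
  | nil => exact absurd h (by simp [chk1])
  | cons hh us =>
    have h' : chk2 a b M ml N nl TA TB (Nat.land e 15) (Nat.land (Nat.shiftRight e 4) 1048575)
      (Nat.shiftRight e 24) hh us = true := h
    unfold chk2 at h'
    cases hq : Nat.beq (Nat.land hh 15) 15
    · rw [hq, cond_false, cond_true_iff, cond_true_iff, Nat.ble_eq] at h'
      obtain ⟨h1, h2, h3⟩ := h'
      obtain ⟨h4, us', h5⟩ := chkL_sound _ _ _ _ _ _ _ _ _ _ _ _ _ _ h3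
      refine Or.inr ⟨_, h1, _, h2, ?_, chkT_sound _ _ _ _ _ _ _ _ h5⟩
      intro j hj
      have := h4 j hj
      rw [Nat.zero_add] at this
      exact this
    · rw [hq, cond_true] at h'
      cases us with
      | nil => exact absurd h' (by simp)
      | cons v us => exact Or.inl ⟨v, h'⟩

theorem ty_lt_all : ((List.range 6).all fun k => (List.range 8).all fun m =>
    (ty k m).all fun τ => τ.H.all fun p => Nat.ble (p.2 + 1) k) = true := by decide +kernel

theorem nb_le : ∀ k < 6, nb k ≤ 8 := by decide +kernel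

theorem ty_lt (k m : ℕ) (hk : k < 6) (hm : m < nb k) : ∀ τ ∈ ty k m, ∀ p ∈ τ.H, p.2 < k := by
  have h := ty_lt_all
  simp only [List.all_eq_true, List.mem_range, Nat.ble_eq] at h
  intro τ hτ p hp
  have := h k hk m (lt_of_lt_of_le hm (nb_le k hk)) τ hτ p hp
  omega

end Pool.Agent.TH412.PF
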