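import Pool.Agent.TH412.PF.Defs

/-!
Petersen minors in terms of the two-element subsets of a set of five elements, the cycle space, the
representation of the cographic matroid.
-/

set_option autoImplicit false

open Finset

namespace Pool.Agent.TH412.PF

/-- The Petersen graph is a minor: there are disjoint connected sets of vertices, one for each
two-element subset of `{0, 1, 2, 3, 4}`, such that the sets of disjoint subsets are joined by an
edge. -/
def HasPetersenMinor {V E : Type} (s t : E → V) : Prop :=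
  ∃ B : Finset (Fin 5) → Set V, (∀ a, a.card = 2 → Conn s t (B a)) ∧
    ∀ a b, a.card = 2 → b.card = 2 →
      (a ≠ b → Disjoint (B a) (B b)) ∧ (Disjoint a b → Lk s t (B a) (B b))

/-- The number of a two-element subset. -/
def pidx (a : Finset (Fin 5)) : ℕ :=
  [0, 0, 0, 0, 0, 9, 3, 0, 0, 8, 7, 0, 1, 0, 0, 0, 0, 2, 6, 0, 5, 0, 0, 0, 4].getD
    (∑ x ∈ a, 2 ^ (x : ℕ)) 0

theorem pidx_ok : ∀ a b : Finset (Fin 5), a.card = 2 → b.card = 2 → pidx a < 10 ∧
    (a ≠ b → pidx a ≠ pidx b) ∧
    (Disjoint a b → (pidx a, pidx b) ∈ petL ∨ (pidx b, pidx a) ∈ petL) := by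
  decide +kernel

theorem hasPet_imp {V E : Type} (s t : E → V) (h : HasPet s t) : HasPetersenMinor s t := by
  obtain ⟨B, h1, h2, h3⟩ := h
  refine ⟨fun a => B (pidx a), fun a ha => h1 _ (pidx_ok a a ha ha).1, fun a b ha hb => ⟨?_, ?_⟩⟩
  · intro hab
    exact h2 _ (pidx_ok a b ha hb).1 _ (pidx_ok b a hb ha).1 ((pidx_ok a b ha hb).2.1 hab)
  · intro hab
    rcases (pidx_ok a b ha hb).2.2 hab with h | h
    · exact h3 _ h
    · obtain ⟨e, he | he⟩ := h3 _ h
      · exact ⟨e, Or.inr ⟨he.2, he.1⟩⟩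
      · exact ⟨e, Or.inl ⟨he.2, he.1⟩⟩

open Classical in
/-- The incidence matrix over `GF(2)`: the entry at a vertex and an edge is the number of ends of the
edge at the vertex. -/
noncomputable def incMatrix {V E : Type} (s t : E → V) : Matrix V E (ZMod 2) :=
  fun v e => (if s e = v then 1 else 0) + (if t e = v then 1 else 0)

/-- The vector `x` over `GF(2)` is in the cycle space: it is in the kernel of the incidence matrix, that
is, every vertex has even degree in the set of edges with `x e = 1`. -/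
def IsCycle {V E : Type} [Fintype E] (s t : E → V) (x : E → ZMod 2) : Prop :=
  ∀ v, ∑ e, incMatrix s t v e * x e = 0

/-- The matrix `A` over `GF(2)`, with one column for each edge, represents the cographic matroid
`M*(G)`: its row space is the cycle space. -/
def Represents {V E : Type} [Fintype E] (s t : E → V) {r : ℕ} (A : Matrix (Fin r) E (ZMod 2)) : Prop :=
  ∀ x : E → ZMod 2, IsCycle s t x ↔ ∃ u : Fin r → ZMod 2, ∀ e, x e = ∑ i, u i * A i e

theorem mem_cycleSpace {V E : Type} [Fintype E] (s t : E → V) (x : E → ZMod 2)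
    (h : ∀ v, bd s t x v = 0) : IsCycle s t x := by
  intro v
  have h1 := h v
  unfold bd at h1
  refine Eq.trans (Finset.sum_congr rfl fun e _ => ?_) h1
  exact mul_comm _ _

theorem fin_cover {V E : Type} [Fintype E] (s t : E → V) (f : E → ℕ)
    (h : Good s t f Set.univ) :
    (∃ x y : E → ZMod 2, IsCycle s t x ∧ IsCycle s t y ∧ ∀ e, x e ≠ 0 ∨ y e ≠ 0) ∧
      ∀ (r : ℕ) (A : Matrix (Fin r) E (ZMod 2)), Represents s t A →
        ∃ B : Matrix (Fin 2) (Fin r) (ZMod 2), ∀ e, ∃ j, ∑ i, B j i * A i e ≠ 0 := by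
  have hx : ∀ i < 3, IsCycle s t (xi f i) :=
    fun i hi => mem_cycleSpace s t _ fun v => h.2 v (Set.mem_univ v) i hi
  have hne : ∀ e, xi f 0 e ≠ 0 ∨ xi f 1 e ≠ 0 := by
    intro e
    unfold xi mem3
    by_cases h0 : f e = 0
    · right
      rw [h0]
      decide
    · left
      have : Nat.beq (f e) 0 = false := by
        rw [← Bool.not_eq_true, Nat.beq_eq]
        exact h0
      rw [this]
      decide
  refine ⟨⟨_, _, hx 0 (by norm_num), hx 1 (by norm_num), hne⟩, fun r A hA => ?_⟩
  obtain ⟨u, hu⟩ := (hA _).1 (hx 0 (by norm_num))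
  obtain ⟨w, hw⟩ := (hA _).1 (hx 1 (by norm_num))
  refine ⟨![u, w], fun e => ?_⟩
  rcases hne e with h3 | h3
  · exact ⟨0, by rw [hu e] at h3; exact h3⟩
  · exact ⟨1, by rw [hw e] at h3; exact h3⟩

end Pool.Agent.TH412.PF
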